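import Mathlib

set_option autoImplicit false

/-!
Cells around a nonempty set `S` of vertices of a connected graph: every vertex `w` has a root
`root w ∈ S` at distance `dS w`, and the cells of the roots are closed under going down.
-/

namespace Pool.Agent.Helper64.Burn

open Finset

variable {V : Type*} (G : SimpleGraph V)

/-- Distance to a set. -/
noncomputable def dS (S : Set V) (w : V) : ℕ := sInf ((fun x => G.dist w x) '' S)

variable {G}

theorem dS_exists {S : Set V} (hS : S.Nonempty) (w : V) : ∃ x ∈ S, G.dist w x = dS G S w := by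
  have h := Nat.sInf_mem (hS.image (fun x => G.dist w x))
  obtain ⟨x, hx, hx'⟩ := h
  exact ⟨x, hx, hx'⟩

theorem dS_le {S : Set V} {x : V} (hx : x ∈ S) (w : V) : dS G S w ≤ G.dist w x :=
  Nat.sInf_le ⟨x, hx, rfl⟩

theorem dS_self {S : Set V} {x : V} (hx : x ∈ S) : dS G S x = 0 := by
  have := dS_le (G := G) hx x
  rw [SimpleGraph.dist_self] at this
  omega

theorem mem_of_dS_eq_zero (hG : G.Connected) {S : Set V} (hS : S.Nonempty) {w : V}
    (h : dS G S w = 0) : w ∈ S := by
  obtain ⟨x, hx, hx'⟩ := dS_exists (G := G) hS w
  rw [h] at hx'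
  have := (hG.dist_eq_zero_iff).1 hx'
  rwa [this]

theorem dS_adj_le (hG : G.Connected) {S : Set V} (hS : S.Nonempty) {w w' : V}
    (h : G.Adj w w') : dS G S w ≤ dS G S w' + 1 := by
  obtain ⟨x, hx, hx'⟩ := dS_exists (G := G) hS w'
  have h1 := dS_le (G := G) hx w
  have h2 := hG.dist_triangle (u := w) (v := w') (w := x)
  have h3 : G.dist w w' = 1 := SimpleGraph.dist_eq_one_iff_adj.2 h
  omega

theorem exists_parent (hG : G.Connected) {S : Set V} (hS : S.Nonempty) {w : V}
    (h : dS G S w ≠ 0) : ∃ w', G.Adj w w' ∧ dS G S w' + 1 = dS G S w := by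
  obtain ⟨x, hx, hx'⟩ := dS_exists (G := G) hS w
  obtain ⟨q, hq⟩ := hG.exists_walk_length_eq_dist w x
  cases q with
  | nil =>
    simp only [SimpleGraph.Walk.length_nil] at hq
    omega
  | @cons _ w' _ hadj q' =>
    refine ⟨w', hadj, ?_⟩
    have h1 : G.dist w' x ≤ q'.length := SimpleGraph.dist_le q'
    have h2 := dS_le (G := G) hx w'
    have h3 := dS_adj_le hG hS hadj
    simp only [SimpleGraph.Walk.length_cons] at hq
    omega

open Classical in
/-- Parent. -/
noncomputable def par (G : SimpleGraph V) (S : Set V) (w : V) : V :=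
  if h : ∃ w', G.Adj w w' ∧ dS G S w' + 1 = dS G S w then h.choose else w

theorem par_spec (hG : G.Connected) {S : Set V} (hS : S.Nonempty) {w : V}
    (h : dS G S w ≠ 0) : G.Adj w (par G S w) ∧ dS G S (par G S w) + 1 = dS G S w := by
  have hex := exists_parent hG hS h
  rw [par, dif_pos hex]
  exact hex.choose_spec

theorem dS_iter (hG : G.Connected) {S : Set V} (hS : S.Nonempty) (w : V) :
    ∀ j, j ≤ dS G S w → dS G S ((par G S)^[j] w) = dS G S w - j := by
  intro j
  induction j with
  | zero => intro _; simp
  | succ j ih =>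
    intro hj
    have h1 := ih (by omega)
    rw [Function.iterate_succ_apply']
    have h2 := (par_spec hG hS (w := (par G S)^[j] w) (by omega)).2
    omega

theorem dist_iter (hG : G.Connected) {S : Set V} (hS : S.Nonempty) (w : V) :
    ∀ j, j ≤ dS G S w → G.dist w ((par G S)^[j] w) ≤ j := by
  intro j
  induction j with
  | zero => intro _; simp
  | succ j ih =>
    intro hj
    have h1 := ih (by omega)
    rw [Function.iterate_succ_apply']
    have h0 := dS_iter hG hS w j (by omega)
    have h2 := (par_spec hG hS (w := (par G S)^[j] w) (by omega)).1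
    have h3 := SimpleGraph.dist_eq_one_iff_adj.2 h2
    have h4 := hG.dist_triangle (u := w) (v := (par G S)^[j] w) (w := par G S ((par G S)^[j] w))
    omega

/-- Root. -/
noncomputable def root (G : SimpleGraph V) (S : Set V) (w : V) : V := (par G S)^[dS G S w] w

theorem root_mem (hG : G.Connected) {S : Set V} (hS : S.Nonempty) (w : V) : root G S w ∈ S := by
  apply mem_of_dS_eq_zero hG hS
  rw [root, dS_iter hG hS w _ le_rfl]
  omega

theorem dist_root (hG : G.Connected) {S : Set V} (hS : S.Nonempty) (w : V) :
    G.dist w (root G S w) ≤ dS G S w := dist_iter hG hS w _ le_rfl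

theorem root_of_mem {S : Set V} {x : V} (hx : x ∈ S) : root G S x = x := by
  rw [root, dS_self hx]; rfl

theorem root_iter (hG : G.Connected) {S : Set V} (hS : S.Nonempty) (w : V) {j : ℕ}
    (hj : j ≤ dS G S w) : root G S ((par G S)^[j] w) = root G S w := by
  rw [root, root, dS_iter hG hS w j hj, ← Function.iterate_add_apply]
  congr 1
  omega

variable [Fintype V]

open Classical in
/-- Height of the cell of `x`. -/
noncomputable def height (G : SimpleGraph V) (S : Set V) (x : V) : ℕ :=
  (Finset.univ.filter (fun w => root G S w = x)).sup (fun w => dS G S w)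

theorem dS_le_height {S : Set V} (w : V) : dS G S w ≤ height G S (root G S w) := by
  classical
  unfold height
  exact Finset.le_sup (f := fun w => dS G S w) (by simp)

theorem height_attained {S : Set V} {x : V} (hx : x ∈ S) :
    ∃ w, root G S w = x ∧ dS G S w = height G S x := by
  classical
  have hne : (Finset.univ.filter (fun w => root G S w = x)).Nonempty :=
    ⟨x, by simp [root_of_mem hx]⟩
  obtain ⟨w, hw, hw'⟩ := Finset.exists_mem_eq_sup _ hne (fun w => dS G S w)
  refine ⟨w, (Finset.mem_filter.1 hw).2, ?_⟩
  unfold height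
  convert hw'.symm

theorem height_le {S : Set V} {x : V} (hx : x ∈ S) {p : ℕ} (hp : ∀ w, dS G S w ≤ p) :
    height G S x ≤ p := by
  obtain ⟨w, _, hw⟩ := height_attained (G := G) hx
  rw [← hw]
  exact hp w

open Classical in
theorem height_lt_card (hG : G.Connected) {S : Set V} (hS : S.Nonempty) {x : V} (hx : x ∈ S) :
    height G S x + 1 ≤ (Finset.univ.filter (fun w => root G S w = x)).card := by
  obtain ⟨w, hw1, hw2⟩ := height_attained (G := G) hx
  have : (Finset.range (height G S x + 1)).card ≤
      (Finset.univ.filter (fun w => root G S w = x)).card := by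
    refine Finset.card_le_card_of_injOn (fun j => (par G S)^[j] w) ?_ ?_
    · intro j hj
      rw [Finset.mem_coe, Finset.mem_range] at hj
      simp only [Finset.coe_filter, Finset.mem_univ, true_and, Set.mem_ofPred_eq]
      rw [root_iter hG hS w (by omega), hw1]
    · intro j hj j' hj' hjj
      rw [Finset.mem_coe, Finset.mem_range] at hj hj'
      simp only at hjj
      have h1 := dS_iter hG hS w j (by omega)
      have h2 := dS_iter hG hS w j' (by omega)
      rw [hjj, h2] at h1
      omega
  rwa [Finset.card_range] at this

open Classical in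
/-- Counting the cells. -/
theorem sum_height_le (hG : G.Connected) {S : Set V} (hS : S.Nonempty) {X : Finset V}
    (hX : ∀ x ∈ X, x ∈ S) : ∑ x ∈ X, (height G S x + 1) +
      (Finset.univ.filter (fun w => root G S w ∉ X)).card ≤ Fintype.card V := by
  have h1 : ∑ x ∈ X, (height G S x + 1) ≤
      ∑ x ∈ X, (Finset.univ.filter (fun w => root G S w = x)).card :=
    Finset.sum_le_sum fun x hx => height_lt_card hG hS (hX x hx)
  have h2 : ∑ x ∈ X, (Finset.univ.filter (fun w => root G S w = x)).card =
      (Finset.univ.filter (fun w => root G S w ∈ X)).card := by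
    rw [← Finset.card_biUnion]
    · congr 1
      ext w
      simp
    · intro x _ y _ hxy
      simp only [Function.onFun]
      rw [Finset.disjoint_left]
      intro w hw hw'
      simp only [Finset.mem_filter, Finset.mem_univ, true_and] at hw hw'
      exact hxy (hw.symm.trans hw')
  have h3 := Finset.card_filter_add_card_filter_not (s := (Finset.univ : Finset V))
    (fun w => root G S w ∈ X)
  rw [Finset.card_univ] at h3
  omega

end Pool.Agent.Helper64.Burn
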