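import Pool.Agent.Helper64.Burn.Linear
import Pool.Agent.Helper64.Burn.Cells
import Pool.Prelude.Def_F_f3d83fae

set_option autoImplicit false

namespace Pool.Agent.Helper64.Burn

open Finset N441b2449

variable {V : Type*} {G : SimpleGraph V}

/-- `A 0, ..., A (L-1)` is a path of `G`. -/
structure PathSeq (G : SimpleGraph V) (L : ℕ) (A : ℕ → V) : Prop where
  pos : 0 < L
  adj : ∀ i, i + 1 < L → G.Adj (A i) (A (i + 1))
  inj : ∀ i j, i < L → j < L → A i = A j → i = j

/-- The vertices of the path. -/
def verts (L : ℕ) (A : ℕ → V) : Set V := {x | ∃ i, i < L ∧ A i = x}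

theorem mem_verts {L : ℕ} {A : ℕ → V} {i : ℕ} (hi : i < L) : A i ∈ verts L A := ⟨i, hi, rfl⟩

theorem PathSeq.nonempty {L : ℕ} {A : ℕ → V} (h : PathSeq G L A) : (verts L A).Nonempty :=
  ⟨A 0, mem_verts h.pos⟩

theorem PathSeq.dist_le (hG : G.Connected) {L : ℕ} {A : ℕ → V} (h : PathSeq G L A) (i : ℕ) :
    ∀ m, i + m < L → G.dist (A i) (A (i + m)) ≤ m := by
  intro m
  induction m with
  | zero => intro _; simp
  | succ m ih =>
    intro hm
    have h1 := ih (by omega)
    have h2 := SimpleGraph.dist_eq_one_iff_adj.2 (h.adj (i + m) (by omega))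
    have h3 := hG.dist_triangle (u := A i) (v := A (i + m)) (w := A (i + m + 1))
    have e : i + (m + 1) = i + m + 1 := by omega
    rw [e]
    omega

theorem PathSeq.dist_le' (hG : G.Connected) {L : ℕ} {A : ℕ → V} (h : PathSeq G L A) {i j d : ℕ}
    (hi : i < L) (hj : j < L) (h1 : i ≤ j + d) (h2 : j ≤ i + d) : G.dist (A i) (A j) ≤ d := by
  rcases le_total i j with hij | hij
  · obtain ⟨m, rfl⟩ := Nat.exists_eq_add_of_le hij
    exact le_trans (h.dist_le hG i m hj) (by omega)
  · obtain ⟨m, rfl⟩ := Nat.exists_eq_add_of_le hij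
    rw [SimpleGraph.dist_comm]
    exact le_trans (h.dist_le hG j m hi) (by omega)

theorem PathSeq.rev {L : ℕ} {A : ℕ → V} (h : PathSeq G L A) :
    PathSeq G L (fun i => A (L - 1 - i)) where
  pos := h.pos
  adj := by
    intro i hi
    have e : L - 1 - i = (L - 1 - (i + 1)) + 1 := by omega
    show G.Adj (A (L - 1 - i)) (A (L - 1 - (i + 1)))
    rw [e]
    exact (h.adj (L - 1 - (i + 1)) (by omega)).symm
  inj := by
    intro i j hi hj hij
    have := h.inj (L - 1 - i) (L - 1 - j) (by omega) (by omega) hij
    omega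

theorem verts_rev {L : ℕ} {A : ℕ → V} : verts L (fun i => A (L - 1 - i)) = verts L A := by
  ext x
  constructor
  · rintro ⟨i, hi, rfl⟩
    exact ⟨L - 1 - i, by omega, rfl⟩
  · rintro ⟨i, hi, rfl⟩
    refine ⟨L - 1 - i, by omega, ?_⟩
    simp only
    congr 1
    omega

theorem burningNumber_le_of_centers (hG : G.Connected) {k : ℕ} (c : ℕ → V)
    (h : ∀ v, ∃ r, r < k ∧ G.dist (c r) v ≤ r) : burningNumber G ≤ k := by
  refine Nat.sInf_le ⟨fun i => c (k - 1 - i), ?_⟩
  intro v
  obtain ⟨r, hr, hr'⟩ := h v
  refine ⟨⟨k - 1 - r, by omega⟩, hG _ _, ?_⟩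
  simp only
  have e : k - 1 - (k - 1 - r) = r := by omega
  rw [e]
  omega

variable [Fintype V]

theorem PathSeq.card_le {L : ℕ} {A : ℕ → V} (h : PathSeq G L A) : L ≤ Fintype.card V := by
  have : Fintype.card (Fin L) ≤ Fintype.card V := by
    refine Fintype.card_le_of_injective (fun i : Fin L => A i) ?_
    intro i j hij
    exact Fin.ext (h.inj i j i.2 j.2 hij)
  rwa [Fintype.card_fin] at this

/-- `A` is a longest path among the paths at distance at most `p` from all vertices. -/
structure MaxPath (G : SimpleGraph V) (p L : ℕ) (A : ℕ → V) : Prop where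
  path : PathSeq G L A
  dom : ∀ w, dS G (verts L A) w ≤ p
  max : ∀ (L' : ℕ) (A' : ℕ → V), PathSeq G L' A' → (∀ w, dS G (verts L' A') w ≤ p) → L' ≤ L

omit [Fintype V] in
theorem MaxPath.rev {p L : ℕ} {A : ℕ → V} (h : MaxPath G p L A) :
    MaxPath G p L (fun i => A (L - 1 - i)) where
  path := h.path.rev
  dom := by rw [verts_rev]; exact h.dom
  max := h.max

theorem exists_maxPath {p L : ℕ} {A : ℕ → V} (h : PathSeq G L A)
    (hd : ∀ w, dS G (verts L A) w ≤ p) : ∃ L' A', MaxPath G p L' A' := by
  classical
  let Q : ℕ → Prop := fun l => ∃ A' : ℕ → V, PathSeq G l A' ∧ ∀ w, dS G (verts l A') w ≤ p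
  have hb : ∀ l, Q l → l ≤ Fintype.card V := by
    rintro l ⟨A', h1, _⟩
    exact h1.card_le
  have hQ : Q L := ⟨A, h, hd⟩
  have h1 : Q (Nat.findGreatest Q (Fintype.card V)) :=
    Nat.findGreatest_spec (hb L hQ) hQ
  obtain ⟨A', h2, h3⟩ := h1
  refine ⟨_, A', h2, h3, ?_⟩
  intro l B h4 h5
  exact Nat.le_findGreatest (hb l ⟨B, h4, h5⟩) ⟨B, h4, h5⟩

theorem MaxPath.left_end (hG : G.Connected) {p L : ℕ} {A : ℕ → V} (h : MaxPath G p L A) :
    ∀ i, i < L → height G (verts L A) (A i) ≤ i := by
  intro i
  induction i using Nat.strong_induction_on with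
  | _ i IH =>
  intro hi
  by_contra hcon
  push Not at hcon
  set S := verts L A with hS
  have hSne : S.Nonempty := h.path.nonempty
  obtain ⟨w, hw1, hw2⟩ := height_attained (G := G) (S := S) (x := A i) (mem_verts hi)
  set m := height G S (A i) with hm
  have hmp : m ≤ p := by rw [← hw2]; exact h.dom w
  have hiter : (par G S)^[m] w = A i := by
    have : root G S w = A i := hw1
    rwa [root, hw2] at this
  let B : ℕ → V := fun j => if j < m then (par G S)^[j] w else A (i + (j - m))
  have hBlow : ∀ j, j ≤ m → B j = (par G S)^[j] w := by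
    intro j hj
    rcases Nat.lt_or_ge j m with h1 | h1
    · simp only [B, if_pos h1]
    · have : j = m := by omega
      subst this
      simp only [B, if_neg (lt_irrefl _), Nat.sub_self, Nat.add_zero]
      exact hiter.symm
  have hBhigh : ∀ j, B (m + j) = A (i + j) := by
    intro j
    have : ¬ (m + j < m) := by omega
    simp only [B, if_neg this]
    congr 1
    omega
  have hBpath : PathSeq G (m + (L - i)) B := by
    refine ⟨by omega, ?_, ?_⟩
    · intro j hj
      rcases Nat.lt_or_ge j m with h1 | h1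
      · rw [hBlow j (by omega), hBlow (j + 1) (by omega), Function.iterate_succ_apply']
        refine (par_spec hG hSne ?_).1
        rw [dS_iter hG hSne w j (by omega)]
        omega
      · obtain ⟨t, rfl⟩ := Nat.exists_eq_add_of_le h1
        have e : m + t + 1 = m + (t + 1) := by omega
        rw [e, hBhigh, hBhigh]
        exact h.path.adj (i + t) (by omega)
    · intro j j' hj hj' hjj
      have hd : ∀ j, j ≤ m → dS G S (B j) = m - j := by
        intro j hj
        rw [hBlow j hj, dS_iter hG hSne w j (by omega), hw2]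
      have hd0 : ∀ t, i + t < L → dS G S (B (m + t)) = 0 := by
        intro t ht
        rw [hBhigh]
        exact dS_self (mem_verts ht)
      rcases Nat.lt_or_ge j m with h1 | h1 <;> rcases Nat.lt_or_ge j' m with h2 | h2
      · have a1 := hd j (by omega)
        have a2 := hd j' (by omega)
        rw [hjj] at a1
        omega
      · obtain ⟨t, rfl⟩ := Nat.exists_eq_add_of_le h2
        have a1 := hd j (by omega)
        have a2 := hd0 t (by omega)
        rw [hjj] at a1
        omega
      · obtain ⟨t, rfl⟩ := Nat.exists_eq_add_of_le h1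
        have a1 := hd j' (by omega)
        have a2 := hd0 t (by omega)
        rw [hjj] at a2
        omega
      · obtain ⟨t, rfl⟩ := Nat.exists_eq_add_of_le h1
        obtain ⟨t', rfl⟩ := Nat.exists_eq_add_of_le h2
        rw [hBhigh, hBhigh] at hjj
        have := h.path.inj _ _ (by omega) (by omega) hjj
        omega
  have hBdom : ∀ v, dS G (verts (m + (L - i)) B) v ≤ p := by
    intro v
    obtain ⟨j, hj, hj'⟩ := root_mem hG hSne v
    have hv := dist_root hG hSne v
    rw [← hj'] at hv
    rcases Nat.lt_or_ge j i with h1 | h1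
    · -- the root is cut off
      have h2 : dS G S v ≤ j := by
        have h3 := dS_le_height (G := G) (S := S) v
        rw [← hj'] at h3
        exact le_trans h3 (IH j h1 hj)
      have h4 : G.dist (A j) (A i) ≤ i - j := h.path.dist_le' hG hj hi (by omega) (by omega)
      have h5 := hG.dist_triangle (u := v) (v := A j) (w := A i)
      have h6 : A i ∈ verts (m + (L - i)) B := by
        refine ⟨m, by omega, ?_⟩
        have := hBhigh 0
        simpa using this
      have h7 := dS_le (G := G) h6 v
      omega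
    · obtain ⟨t, rfl⟩ := Nat.exists_eq_add_of_le h1
      have h6 : A (i + t) ∈ verts (m + (L - i)) B := ⟨m + t, by omega, hBhigh t⟩
      have h7 := dS_le (G := G) h6 v
      have h8 : dS G S v ≤ p := h.dom v
      omega
  have := h.max _ _ hBpath hBdom
  omega

theorem MaxPath.right_end (hG : G.Connected) {p L : ℕ} {A : ℕ → V} (h : MaxPath G p L A) :
    ∀ i, i < L → i + height G (verts L A) (A i) < L := by
  intro i hi
  have h1 := h.rev.left_end hG (L - 1 - i) (by omega)
  rw [verts_rev] at h1
  have e : L - 1 - (L - 1 - i) = i := by omega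
  rw [e] at h1
  omega

theorem MaxPath.sum_le (hG : G.Connected) {p L : ℕ} {A : ℕ → V} (h : MaxPath G p L A) :
    L + ∑ i ∈ Finset.range L, height G (verts L A) (A i) ≤ Fintype.card V := by
  classical
  set S := verts L A with hS
  have h1 := sum_height_le hG (S := S) h.path.nonempty (X := (Finset.range L).image A) (by
    intro x hx
    obtain ⟨i, hi, rfl⟩ := Finset.mem_image.1 hx
    exact mem_verts (Finset.mem_range.1 hi))
  rw [Finset.sum_image (by
    intro i hi j hj hij
    rw [Finset.mem_coe, Finset.mem_range] at hi hj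
    exact h.path.inj i j hi hj hij), Finset.sum_add_distrib] at h1
  simp only [Finset.sum_const, Finset.card_range, smul_eq_mul, mul_one] at h1
  omega

/-- The burning number conjecture for graphs with a path close to all vertices. -/
theorem burn_of_path (hG : G.Connected) {p L k : ℕ} {A : ℕ → V} (hA : PathSeq G L A)
    (hd : ∀ w, dS G (verts L A) w ≤ p) (hk : Fintype.card V ≤ k ^ 2)
    (hp : 40 * p ^ 2 ≤ k ∨ 360000 * p ≤ k ∨ 2 * (Fintype.card V - L) < k) :
    ∃ c : ℕ → V, ∀ v, ∃ r, r < k ∧ G.dist (c r) v ≤ r := by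
  obtain ⟨L', B, hB⟩ := exists_maxPath hA hd
  have hLL : L ≤ L' := hB.max L A hA hd
  set S := verts L' B with hS
  have hsum : L' + ∑ i ∈ Finset.range L', height G S (B i) ≤ Fintype.card V := hB.sum_le hG
  obtain ⟨c, hc⟩ := line_main (L := L') (p := p) (k := k) (h := fun i => height G S (B i))
    (fun i hi => height_le (mem_verts hi) hB.dom) (hB.left_end hG) (hB.right_end hG)
    (le_trans hsum hk) (by
      rcases hp with hp | hp | hp
      · exact Or.inl hp
      · exact Or.inr (Or.inl hp)
      · right; right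
        omega)
  have hLpos := hB.path.pos
  refine ⟨fun r => B (min (c r).toNat (L' - 1)), ?_⟩
  intro v
  obtain ⟨j, hj, hj'⟩ := root_mem hG hB.path.nonempty v
  have h1 : G.dist v (B j) ≤ dS G S v := by
    rw [hj']; exact dist_root hG hB.path.nonempty v
  have h2 : dS G S v ≤ height G S (B j) := by
    rw [hj']; exact dS_le_height (G := G) (S := S) v
  obtain ⟨r, hr, hr1, hr2⟩ := hc j hj
  refine ⟨r, hr, ?_⟩
  show G.dist (B (min (c r).toNat (L' - 1))) v ≤ r
  have h3 : G.dist (B (min (c r).toNat (L' - 1))) (B j) ≤ r - height G S (B j) := by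
    refine hB.path.dist_le' hG (by omega) hj ?_ ?_
    · omega
    · omega
  have h4 := hG.dist_triangle (u := B (min (c r).toNat (L' - 1))) (v := B j) (w := v)
  rw [SimpleGraph.dist_comm (u := B j)] at h4
  have h5 : height G S (B j) ≤ r := by omega
  omega

omit [Fintype V] in
/-- A path in the sense of Mathlib gives a path sequence. -/
theorem pathSeq_of_walk {u v : V} (P : G.Walk u v) (hP : P.IsPath) :
    PathSeq G (P.length + 1) P.getVert ∧ verts (P.length + 1) P.getVert = {x | x ∈ P.support} := by
  refine ⟨⟨by omega, ?_, ?_⟩, ?_⟩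
  · intro i hi
    exact P.adj_getVert_succ (by omega)
  · intro i j hi hj hij
    exact (hP.getVert_injOn) (by simp only [Set.mem_ofPred_eq]; omega)
      (by simp only [Set.mem_ofPred_eq]; omega) hij
  · ext x
    rw [Set.mem_ofPred_eq, SimpleGraph.Walk.mem_support_iff_exists_getVert]
    constructor
    · rintro ⟨i, hi, rfl⟩
      exact ⟨i, rfl, by omega⟩
    · rintro ⟨i, hi, hi'⟩
      exact ⟨i, by omega, hi⟩

end Pool.Agent.Helper64.Burn
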