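import Pool.Agent.Helper64.Burn.Forest

set_option autoImplicit false

/-!
A tree is close to a path or has a vertex with three long arms; distances along paths of a tree.
-/

namespace Pool.Agent.Helper64.Burn

open Finset

variable {V : Type*}

theorem path_or_branch [Fintype V] {T : SimpleGraph V} (hT : T.Connected) (M : ℕ) :
    (∃ L A, PathSeq T L A ∧ ∀ w, dS T (verts L A) w ≤ M) ∨
      ∃ v, ∃ B : Finset V, 3 * M + 1 ≤ B.card ∧ ∀ w ∈ B, T.dist v w ≤ M := by
  classical
  obtain ⟨x₀⟩ := hT.nonempty
  set D := Finset.univ.sup (fun x => Finset.univ.sup (fun y => T.dist x y)) with hD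
  have hDle : ∀ x y, T.dist x y ≤ D := fun x y =>
    le_trans (Finset.le_sup (f := fun y => T.dist x y) (Finset.mem_univ y))
      (Finset.le_sup (f := fun x => Finset.univ.sup (fun y => T.dist x y)) (Finset.mem_univ x))
  have hpath : PathSeq T 1 (fun _ => x₀) :=
    ⟨Nat.one_pos, fun i hi => by omega, fun i j hi hj _ => by omega⟩
  obtain ⟨L, A, hA⟩ := exists_maxPath (p := D) hpath (fun w =>
    le_trans (dS_le (show x₀ ∈ verts 1 (fun _ => x₀) from ⟨0, Nat.one_pos, rfl⟩) w) (hDle _ _))
  by_cases hall : ∀ w, dS T (verts L A) w ≤ M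
  · exact Or.inl ⟨L, A, hA.path, hall⟩
  · right
    push Not at hall
    obtain ⟨w, hw⟩ := hall
    set S := verts L A with hS
    have hSne : S.Nonempty := hA.path.nonempty
    obtain ⟨j₀, hj₀, hroot⟩ := root_mem hT hSne w
    have hh := dS_le_height (G := T) (S := S) w
    rw [← hroot] at hh
    have h1 := hA.left_end hT j₀ hj₀
    have h2 := hA.right_end hT j₀ hj₀
    rw [← hS] at h1 h2
    refine ⟨A j₀, (Finset.range (2 * M + 1)).image (fun a => A (j₀ - M + a)) ∪
      (Finset.Icc 1 M).image (fun i => (par T S)^[dS T S w - i] w), ?_, ?_⟩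
    · have hdi : ∀ i, i ≤ M → dS T S ((par T S)^[dS T S w - i] w) = i := by
        intro i hi
        rw [dS_iter hT hSne w _ (by omega)]
        omega
      have hmem : ∀ a, a < 2 * M + 1 → A (j₀ - M + a) ∈ S := fun a ha => mem_verts (by omega)
      rw [Finset.card_union_of_disjoint]
      · rw [Finset.card_image_of_injOn, Finset.card_image_of_injOn]
        · simp only [Finset.card_range, Nat.card_Icc]
          omega
        · intro i hi i' hi' he
          simp only [Finset.coe_Icc, Set.mem_Icc] at hi hi'
          have h3 := hdi i (by omega)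
          have h4 := hdi i' (by omega)
          simp only at he
          rw [he, h4] at h3
          exact h3.symm
        · intro a ha a' ha' he
          rw [Finset.mem_coe, Finset.mem_range] at ha ha'
          have := hA.path.inj _ _ (by omega) (by omega) he
          omega
      · rw [Finset.disjoint_left]
        intro x hx hx'
        obtain ⟨a, ha, rfl⟩ := Finset.mem_image.1 hx
        obtain ⟨i, hi, he⟩ := Finset.mem_image.1 hx'
        rw [Finset.mem_range] at ha
        rw [Finset.mem_Icc] at hi
        have h3 := hdi i hi.2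
        rw [he, dS_self (hmem a ha)] at h3
        omega
    · intro x hx
      rcases Finset.mem_union.1 hx with hx | hx
      · obtain ⟨a, ha, rfl⟩ := Finset.mem_image.1 hx
        rw [Finset.mem_range] at ha
        exact hA.path.dist_le' hT hj₀ (by omega) (by omega) (by omega)
      · obtain ⟨i, hi, rfl⟩ := Finset.mem_image.1 hx
        rw [Finset.mem_Icc] at hi
        have h3 := dist_root hT hSne ((par T S)^[dS T S w - i] w)
        rw [root_iter hT hSne w (by omega), ← hroot, dS_iter hT hSne w _ (by omega)] at h3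
        rw [SimpleGraph.dist_comm]
        omega

theorem PathSeq.exists_walk {T : SimpleGraph V} {L : ℕ} {A : ℕ → V} (hA : PathSeq T L A) (a : ℕ) :
    ∀ m, a + m < L → ∃ W : T.Walk (A a) (A (a + m)),
      W.support = (List.range (m + 1)).map (fun j => A (a + j)) := by
  intro m
  induction m with
  | zero => intro _; exact ⟨SimpleGraph.Walk.nil, by simp⟩
  | succ m ih =>
    intro hm
    obtain ⟨W, hW⟩ := ih (by omega)
    refine ⟨W.concat (hA.adj (a + m) (by omega)), ?_⟩
    rw [SimpleGraph.Walk.support_concat, hW, List.range_succ (n := m + 1), List.map_append]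
    simp

theorem tree_convex {T : SimpleGraph V} (hT : T.IsTree) {L : ℕ} {A : ℕ → V} (hA : PathSeq T L A)
    {v : V} {r a b c : ℕ} (hab : a ≤ b) (hbc : b ≤ c) (hc : c < L) (h1 : T.dist v (A a) ≤ r)
    (h2 : T.dist v (A c) ≤ r) : T.dist v (A b) ≤ r := by
  classical
  obtain ⟨m, rfl⟩ := Nat.exists_eq_add_of_le (hab.trans hbc)
  obtain ⟨s, rfl⟩ := Nat.exists_eq_add_of_le hab
  obtain ⟨W, hW⟩ := hA.exists_walk a m hc
  have hWp : W.IsPath := by
    rw [SimpleGraph.Walk.isPath_def, hW]
    refine List.Nodup.map_on ?_ List.nodup_range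
    intro x hx y hy hxy
    rw [List.mem_range] at hx hy
    have := hA.inj _ _ (by omega) (by omega) hxy
    omega
  obtain ⟨p1, hp1⟩ := hT.connected.exists_walk_length_eq_dist (A a) v
  obtain ⟨p2, hp2⟩ := hT.connected.exists_walk_length_eq_dist v (A (a + m))
  have hun := (hT.isAcyclic.subsingleton_path (A a) (A (a + m))).elim ⟨W, hWp⟩
    ⟨(p1.append p2).bypass, (p1.append p2).bypass_isPath⟩
  have hsupp : W.support = (p1.append p2).bypass.support :=
    congrArg (fun q : T.Path (A a) (A (a + m)) => (q : T.Walk (A a) (A (a + m))).support) hun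
  have hb : A (a + s) ∈ W.support := by
    rw [hW, List.mem_map]
    exact ⟨s, List.mem_range.2 (by omega), rfl⟩
  rw [hsupp] at hb
  have hb' := (p1.append p2).support_bypass_subset_support hb
  rw [SimpleGraph.Walk.mem_support_append_iff] at hb'
  rcases hb' with hb' | hb'
  · have h3 : T.dist (A (a + s)) v ≤ (p1.dropUntil _ hb').length := SimpleGraph.dist_le _
    have h4 := p1.length_dropUntil_le_length hb'
    rw [SimpleGraph.dist_comm] at h3
    rw [SimpleGraph.dist_comm] at h1
    omega
  · have h3 : T.dist v (A (a + s)) ≤ (p2.takeUntil _ hb').length := SimpleGraph.dist_le _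
    have h4 := p2.length_takeUntil_le_length hb'
    omega

/-- A convex property of the positions on a path holds on an interval. -/
theorem exists_interval (P : ℕ → Prop) (L : ℕ)
    (hP : ∀ a b c, a ≤ b → b ≤ c → c < L → P a → P c → P b) :
    ∃ a b, a ≤ b ∧ b ≤ L ∧ ∀ j, j < L → (P j ↔ a ≤ j ∧ j < b) := by
  classical
  by_cases hex : ∃ j, j < L ∧ P j
  · have h1 := Nat.find_spec hex
    set a := Nat.find hex with ha
    have hmin : ∀ j, j < L → P j → a ≤ j := fun j hj hPj => Nat.find_min' hex ⟨hj, hPj⟩
    set b := Nat.findGreatest (fun j => j < L ∧ P j) L with hb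
    have h2 : b < L ∧ P b := Nat.findGreatest_spec (P := fun j => j < L ∧ P j) h1.1.le h1
    have hmax : ∀ j, j < L → P j → j ≤ b := fun j hj hPj =>
      Nat.le_findGreatest hj.le ⟨hj, hPj⟩
    refine ⟨a, b + 1, ?_, by omega, ?_⟩
    · have := hmax a h1.1 h1.2
      omega
    · intro j hj
      constructor
      · intro hPj
        have := hmin j hj hPj
        have := hmax j hj hPj
        omega
      · rintro ⟨h3, h4⟩
        exact hP a j b h3 (by omega) h2.1 h1.2 h2.2
  · refine ⟨L, L, le_rfl, le_rfl, ?_⟩
    intro j hj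
    constructor
    · intro hPj
      exact absurd ⟨j, hj, hPj⟩ hex
    · intro h
      omega

end Pool.Agent.Helper64.Burn
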