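import Pool.Agent.Helper64.Burn.Line

set_option autoImplicit false

/-!
Distributing radii among several lines.
-/

namespace Pool.Agent.Helper64.Burn

open Finset

theorem pack {ι : Type*} [Fintype ι] [DecidableEq ι] (t : ℕ) (ht : Fintype.card ι ≤ t) (r₀ : ℕ) :
    ∀ (K : ℕ) (need : ι → ℕ),
      ∑ i, need i + 36 * t ^ 2 ≤ ∑ x ∈ (Finset.range K).erase r₀, (2 * x + 1) →
      ∃ R : ι → Finset ℕ, (∀ i, R i ⊆ (Finset.range K).erase r₀) ∧
        (∀ i j, i ≠ j → Disjoint (R i) (R j)) ∧ ∀ i, need i ≤ ∑ x ∈ R i, (2 * x + 1) := by
  intro K
  induction K with
  | zero =>
    intro need h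
    have h0 : ∑ i, need i = 0 := by
      simp only [Finset.range_zero, Finset.erase_empty, Finset.sum_empty] at h
      omega
    refine ⟨fun _ => ∅, by simp, by simp, ?_⟩
    intro i
    have := (Finset.sum_eq_zero_iff.1 h0) i (Finset.mem_univ i)
    omega
  | succ K ih =>
    intro need h
    by_cases hKr : K = r₀
    · have e : (Finset.range (K + 1)).erase r₀ = (Finset.range K).erase r₀ := by
        ext x
        simp only [Finset.mem_erase, Finset.mem_range]
        omega
      rw [e] at h ⊢
      exact ih need h
    have hsum : ∑ x ∈ (Finset.range (K + 1)).erase r₀, (2 * x + 1) =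
        ∑ x ∈ (Finset.range K).erase r₀, (2 * x + 1) + (2 * K + 1) := by
      have e : (Finset.range (K + 1)).erase r₀ = insert K ((Finset.range K).erase r₀) := by
        ext x
        simp only [Finset.mem_erase, Finset.mem_range, Finset.mem_insert]
        omega
      rw [e, Finset.sum_insert (by simp)]
      omega
    have hsub : (Finset.range K).erase r₀ ⊆ (Finset.range (K + 1)).erase r₀ := by
      intro x hx
      simp only [Finset.mem_erase, Finset.mem_range] at hx ⊢
      omega
    have hKmem : K ∈ (Finset.range (K + 1)).erase r₀ := by
      simp only [Finset.mem_erase, Finset.mem_range]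
      omega
    by_cases hbig : ∃ i, 2 * K + 1 ≤ need i
    · obtain ⟨i, hi⟩ := hbig
      have hs : ∑ j, Function.update need i (need i - (2 * K + 1)) j + (2 * K + 1) =
          ∑ j, need j := by
        rw [Finset.sum_update_of_mem (Finset.mem_univ i)]
        have h1 := Finset.add_sum_erase Finset.univ need (Finset.mem_univ i)
        have h2 : ∑ x ∈ Finset.univ \ {i}, need x = ∑ x ∈ Finset.univ.erase i, need x := by
          rw [Finset.sdiff_singleton_eq_erase]
        omega
      obtain ⟨R, hR1, hR2, hR3⟩ := ih (Function.update need i (need i - (2 * K + 1))) (by omega)
      refine ⟨Function.update R i (insert K (R i)), ?_, ?_, ?_⟩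
      · intro j
        by_cases hj : j = i
        · subst hj
          rw [Function.update_self]
          exact Finset.insert_subset hKmem ((hR1 j).trans hsub)
        · rw [Function.update_of_ne hj]
          exact (hR1 j).trans hsub
      · have hKn : ∀ j, K ∉ R j := by
          intro j hj
          have := hR1 j hj
          simp only [Finset.mem_erase, Finset.mem_range] at this
          omega
        intro a b hab
        by_cases ha : a = i
        · subst ha
          rw [Function.update_self, Function.update_of_ne (Ne.symm hab), Finset.disjoint_insert_left]
          exact ⟨hKn b, hR2 a b hab⟩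
        · rw [Function.update_of_ne ha]
          by_cases hb : b = i
          · subst hb
            rw [Function.update_self, Finset.disjoint_insert_right]
            exact ⟨hKn a, hR2 a b hab⟩
          · rw [Function.update_of_ne hb]
            exact hR2 a b hab
      · intro j
        have h3 := hR3 j
        by_cases hj : j = i
        · subst hj
          rw [Function.update_self] at h3 ⊢
          rw [Finset.sum_insert]
          · omega
          · intro hj
            have := hR1 j hj
            simp only [Finset.mem_erase, Finset.mem_range] at this
            omega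
        · rw [Function.update_of_ne hj] at h3 ⊢
          exact h3
    · push Not at hbig
      rcases Nat.lt_or_ge K (6 * t) with hK | hK
      · have h1 : ∑ x ∈ (Finset.range (K + 1)).erase r₀, (2 * x + 1) ≤ (K + 1) ^ 2 := by
          rw [← sum_range_radii]
          exact Finset.sum_le_sum_of_subset (Finset.erase_subset _ _)
        have h2 : (K + 1) ^ 2 ≤ (6 * t) ^ 2 := Nat.pow_le_pow_left (by omega) 2
        have h3 : (6 * t) ^ 2 = 36 * t ^ 2 := by ring
        have h0 : ∑ i, need i = 0 := by omega
        refine ⟨fun _ => ∅, by simp, by simp, ?_⟩
        intro i
        have := (Finset.sum_eq_zero_iff.1 h0) i (Finset.mem_univ i)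
        omega
      · let e := Fintype.equivFin ι
        have he : ∀ i, (e i : ℕ) < t := fun i => lt_of_lt_of_le (e i).2 ht
        let R : ι → Finset ℕ := fun i =>
          ({K - 3 * (e i : ℕ), K - 3 * (e i : ℕ) - 1, K - 3 * (e i : ℕ) - 2} : Finset ℕ).erase r₀
        refine ⟨R, ?_, ?_, ?_⟩
        · intro i x hx
          have := he i
          simp only [R, Finset.mem_erase, Finset.mem_insert, Finset.mem_singleton,
            Finset.mem_range] at hx ⊢
          omega
        · intro i j hij
          have h1 := he i
          have h2 := he j
          have h3 : (e i : ℕ) ≠ (e j : ℕ) := by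
            intro hh
            exact hij (e.injective (Fin.ext hh))
          rw [Finset.disjoint_left]
          intro x hx hx'
          simp only [R, Finset.mem_erase, Finset.mem_insert, Finset.mem_singleton] at hx hx'
          omega
        · intro i
          have h1 := he i
          have h2 := hbig i
          set y := K - 3 * (e i : ℕ) with hy
          have hpair : ∃ a b : ℕ, a ≠ b ∧ ({a, b} : Finset ℕ) ⊆ R i ∧ y ≤ a + 2 ∧ y ≤ b + 2 := by
            by_cases c1 : y = r₀
            · refine ⟨y - 1, y - 2, by omega, ?_, by omega, by omega⟩
              intro x hx
              simp only [R, Finset.mem_erase, Finset.mem_insert, Finset.mem_singleton] at hx ⊢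
              omega
            · by_cases c2 : y - 1 = r₀
              · refine ⟨y, y - 2, by omega, ?_, by omega, by omega⟩
                intro x hx
                simp only [R, Finset.mem_erase, Finset.mem_insert, Finset.mem_singleton] at hx ⊢
                omega
              · refine ⟨y, y - 1, by omega, ?_, by omega, by omega⟩
                intro x hx
                simp only [R, Finset.mem_erase, Finset.mem_insert, Finset.mem_singleton] at hx ⊢
                omega
          obtain ⟨a, b, hab, hsub2, ha, hb⟩ := hpair
          have h3 := Finset.sum_le_sum_of_subset (f := fun x => 2 * x + 1) hsub2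
          rw [Finset.sum_pair hab] at h3
          omega

end Pool.Agent.Helper64.Burn
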