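import Pool.Agent.Helper64.Burn.Branch
import Pool.Agent.Helper64.Burn.Pack

set_option autoImplicit false

/-!
The burning number conjecture for graphs with few disjoint paths close to all vertices.
-/

namespace Pool.Agent.Helper64.Burn

open Finset

variable {V : Type*}

theorem piece_cover {T : SimpleGraph V} (hT : T.Connected) {L : ℕ} {A : ℕ → V}
    (hA : PathSeq T L A) {off len p : ℕ} (hle : off + len ≤ L) {h : ℕ → ℕ}
    (hp : ∀ j, j < len → h j ≤ p) {R : Finset ℕ}
    (hR : len + p + 10 * p ^ 2 + ∑ j ∈ Finset.range len, h j ≤ ∑ x ∈ R, (2 * x + 1)) :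
    ∃ c : ℕ → V, ∀ j, j < len → ∃ r ∈ R, T.dist (c r) (A (off + j)) + h j ≤ r := by
  let h' : ℕ → ℕ := fun j => if j < p then 0 else if j < p + len then h (j - p) else 0
  have hlow : ∀ j, j < p → h' j = 0 := fun j hj => by simp only [h', if_pos hj]
  have hhigh : ∀ j, j < len → h' (p + j) = h j := by
    intro j hj
    have e1 : ¬ (p + j < p) := by omega
    have e2 : p + j < p + len := by omega
    simp only [h', if_neg e1, if_pos e2]
    congr 1
    omega
  have hle' : ∀ j, j < p + len → h' j ≤ p := by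
    intro j hj
    rcases Nat.lt_or_ge j p with h1 | h1
    · rw [hlow j h1]
      exact Nat.zero_le _
    · obtain ⟨m, rfl⟩ := Nat.exists_eq_add_of_le h1
      rw [hhigh m (by omega)]
      exact hp m (by omega)
  have hsum : ∑ i ∈ Finset.range (p + len), h' i = ∑ j ∈ Finset.range len, h j := by
    rw [Finset.sum_range_add, Finset.sum_eq_zero (s := Finset.range p) (fun j hj =>
      hlow j (Finset.mem_range.1 hj)), zero_add]
    exact Finset.sum_congr rfl (fun j hj => hhigh j (Finset.mem_range.1 hj))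
  obtain ⟨c, hc⟩ := line_cover (L := p + len) (p := p) (h := h') (J := R) hle' (by
    intro i hi
    rcases Nat.lt_or_ge i p with h1 | h1
    · rw [hlow i h1]
      exact Nat.zero_le _
    · exact (hle' i hi).trans h1) (by
    rw [hsum]
    omega)
  refine ⟨fun r => A (off + min (c r - p) (len - 1)), ?_⟩
  intro j hj
  obtain ⟨r, hr, h1, h2⟩ := hc (p + j) (by omega)
  rw [hhigh j hj] at h1 h2
  refine ⟨r, hr, ?_⟩
  have h3 : T.dist (A (off + min (c r - p) (len - 1))) (A (off + j)) ≤ r - h j := by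
    refine hA.dist_le' hT (by omega) (by omega) ?_ ?_
    · omega
    · omega
  simp only
  omega

open Classical in
theorem burn_few [Fintype V] {G : SimpleGraph V} (hG : G.Connected) {t : ℕ} {L : Fin t → ℕ}
    {A : Fin t → ℕ → V} (h : FewPaths G L A) (hne : (allVerts L A).Nonempty) {p k : ℕ}
    (hd : ∀ w, dS G (allVerts L A) w ≤ p) (hk : Fintype.card V ≤ k ^ 2)
    (hc : 360000 * (144 * t ^ 2 + 26 * t * p ^ 2) ≤ k) :
    ∃ c : ℕ → V, ∀ v, ∃ r, r < k ∧ G.dist (c r) v ≤ r := by
  have ht : 1 ≤ t := by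
    obtain ⟨_, i, _⟩ := hne
    have := i.2
    omega
  obtain ⟨T, hTG, hT, hF, hdT⟩ := exists_tree hG h hne
  suffices H : ∃ c : ℕ → V, ∀ v, ∃ r, r < k ∧ T.dist (c r) v ≤ r by
    obtain ⟨c, hc'⟩ := H
    refine ⟨c, fun v => ?_⟩
    obtain ⟨r, hr, hr'⟩ := hc' v
    exact ⟨r, hr, le_trans ((hT.connected _ _).dist_anti hTG) hr'⟩
  have hTc := hT.connected
  set S := allVerts L A with hS
  have hd' : ∀ w, dS T S w ≤ p := fun w => (hdT w).trans (hd w)
  set M := 144 * t ^ 2 + 26 * t * p ^ 2 with hM
  rcases path_or_branch hTc M with ⟨L', A', h1, h2⟩ | ⟨v, B, hB1, hB2⟩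
  · exact burn_of_path hTc h1 h2 hk (Or.inr (Or.inl hc))
  have hp1 : 4 * p + 2 * t * p ≤ 6 * (t * p ^ 2) := by
    rcases Nat.eq_zero_or_pos p with rfl | hp0
    · simp
    · have e1 : p ≤ t * p ^ 2 := by nlinarith [Nat.mul_le_mul ht (Nat.le_mul_self p)]
      have e2 : t * p ≤ t * p ^ 2 := Nat.mul_le_mul_left _ (by nlinarith)
      nlinarith
  have ht2 : 1 ≤ t ^ 2 := Nat.one_le_pow _ _ ht
  have hr0 : M + 2 * p < k := by nlinarith
  have hint : ∀ i, ∃ a b, a ≤ b ∧ b ≤ L i ∧ ∀ j, j < L i →
      (T.dist v (A i j) ≤ M + p ↔ a ≤ j ∧ j < b) := by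
    intro i
    exact exists_interval (fun j => T.dist v (A i j) ≤ M + p) (L i)
      (fun a b c hab hbc hc' h1 h2 => tree_convex hT (hF.path i) hab hbc hc' h1 h2)
  choose a b hab hbL hintv using hint
  let off : Fin t × Bool → ℕ := fun q => if q.2 then b q.1 else 0
  let len : Fin t × Bool → ℕ := fun q => if q.2 then L q.1 - b q.1 else a q.1
  have hoffF : ∀ i, off (i, false) = 0 := fun i => rfl
  have hoffT : ∀ i, off (i, true) = b i := fun i => rfl
  have hlenF : ∀ i, len (i, false) = a i := fun i => rfl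
  have hlenT : ∀ i, len (i, true) = L i - b i := fun i => rfl
  have fact1 : ∀ q, off q + len q ≤ L q.1 := by
    rintro ⟨i, s⟩
    have h1 := hab i
    have h2 := hbL i
    cases s
    · rw [hoffF, hlenF]; simp only; omega
    · rw [hoffT, hlenT]; simp only; omega
  have fact2 : ∀ q j, j < len q → ¬ (a q.1 ≤ off q + j ∧ off q + j < b q.1) := by
    rintro ⟨i, s⟩ j hj
    have h1 := hab i
    have h2 := hbL i
    cases s
    · rw [hoffF]; rw [hlenF] at hj; simp only; omega
    · rw [hoffT]; rw [hlenT] at hj; simp only; omega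
  have fact3 : ∀ i j, j < L i → ¬ (a i ≤ j ∧ j < b i) →
      ∃ s j', j' < len (i, s) ∧ off (i, s) + j' = j := by
    intro i j hj hn
    have h1 := hab i
    have h2 := hbL i
    rcases Nat.lt_or_ge j (a i) with h3 | h3
    · exact ⟨false, j, by rw [hlenF]; exact h3, by rw [hoffF]; omega⟩
    · refine ⟨true, j - b i, ?_, ?_⟩
      · rw [hlenT]; omega
      · rw [hoffT]; omega
  have fact4 : ∀ q q' j j', j < len q → j' < len q' → q.1 = q'.1 → off q + j = off q' + j' →
      q = q' ∧ j = j' := by
    rintro ⟨i, s⟩ ⟨i', s'⟩ j j' hj hj' he hoo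
    simp only at he
    subst he
    have h1 := hab i
    have h2 := hbL i
    cases s <;> cases s'
    · rw [hoffF] at hoo
      exact ⟨rfl, by omega⟩
    · rw [hoffF, hoffT] at hoo
      rw [hlenF] at hj
      omega
    · rw [hoffF, hoffT] at hoo
      rw [hlenF] at hj'
      omega
    · exact ⟨rfl, by omega⟩
  set Z : Finset (Σ _ : Fin t × Bool, ℕ) :=
    (Finset.univ : Finset (Fin t × Bool)).sigma (fun q => Finset.range (len q)) with hZ
  set f : (Σ _ : Fin t × Bool, ℕ) → V := fun z => A z.1.1 (off z.1 + z.2) with hf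
  have hZmem : ∀ q j, (⟨q, j⟩ : Σ _ : Fin t × Bool, ℕ) ∈ Z ↔ j < len q := by
    intro q j
    simp [hZ]
  have hX := sum_height_le hTc (S := S) hne (X := Z.image f) (by
    intro x hx
    obtain ⟨⟨q, j⟩, hz, rfl⟩ := Finset.mem_image.1 hx
    rw [hZmem] at hz
    exact ⟨q.1, off q + j, by have := fact1 q; omega, rfl⟩)
  rw [Finset.sum_image (by
    rintro ⟨q, j⟩ hz ⟨q', j'⟩ hz' he
    rw [Finset.mem_coe, hZmem] at hz hz'
    have h1 := fact1 q
    have h2 := fact1 q'
    obtain ⟨e1, e2⟩ := hF.index (i := q.1) (i' := q'.1) (j := off q + j) (j' := off q' + j')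
      (by omega) (by omega) he
    obtain ⟨rfl, rfl⟩ := fact4 q q' j j' hz hz' e1 e2
    rfl), hZ, Finset.sum_sigma] at hX
  have hroot : B.card ≤ (Finset.univ.filter (fun w => root T S w ∉ Z.image f)).card := by
    refine Finset.card_le_card ?_
    intro w hw
    simp only [Finset.mem_filter, Finset.mem_univ, true_and]
    intro hw'
    obtain ⟨⟨q, j⟩, hz, he⟩ := Finset.mem_image.1 hw'
    rw [hZmem] at hz
    have h1 := fact1 q
    refine fact2 q j hz ((hintv q.1 (off q + j) (by omega)).1 ?_)
    have h3 : A q.1 (off q + j) = root T S w := he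
    rw [h3]
    have h4 := hB2 w hw
    have h5 := dist_root hTc hne w
    have h6 := hd' w
    have h7 := hTc.dist_triangle (u := v) (v := w) (w := root T S w)
    omega
  let hh : Fin t × Bool → ℕ → ℕ := fun q j => height T S (A q.1 (off q + j))
  let need : Fin t × Bool → ℕ := fun q => len q + p + 10 * p ^ 2 + ∑ j ∈ Finset.range (len q), hh q j
  have hneed : ∑ q, need q = ∑ q, ∑ j ∈ Finset.range (len q),
      (height T S (A q.1 (off q + j)) + 1) + 2 * t * (p + 10 * p ^ 2) := by
    have e1 : ∀ q, need q = ∑ j ∈ Finset.range (len q),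
        (height T S (A q.1 (off q + j)) + 1) + (p + 10 * p ^ 2) := by
      intro q
      rw [Finset.sum_add_distrib]
      simp only [Finset.sum_const, Finset.card_range, smul_eq_mul, mul_one]
      show len q + p + 10 * p ^ 2 + ∑ j ∈ Finset.range (len q), height T S (A q.1 (off q + j)) = _
      ring
    rw [Finset.sum_congr rfl (fun q _ => e1 q), Finset.sum_add_distrib]
    congr 1
    simp only [Finset.sum_const, Finset.card_univ, Fintype.card_prod, Fintype.card_fin,
      Fintype.card_bool, smul_eq_mul]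
    ring
  have hsumk : ∑ x ∈ (Finset.range k).erase (M + 2 * p), (2 * x + 1) + (2 * (M + 2 * p) + 1) =
      k ^ 2 := by
    rw [← sum_range_radii k, ← Finset.sum_erase_add _ _ (Finset.mem_range.2 hr0)]
  have hX' : ∑ q, ∑ j ∈ Finset.range (len q), (height T S (A q.1 (off q + j)) + 1) +
      (3 * M + 1) ≤ k ^ 2 := by
    refine le_trans ?_ hk
    refine le_trans ?_ hX
    exact Nat.add_le_add_left (hB1.trans hroot) _
  obtain ⟨R, hR1, hR2, hR3⟩ := pack (ι := Fin t × Bool) (2 * t) (by
    simp [Fintype.card_prod]; omega) (M + 2 * p) k need (by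
    rw [hneed]
    nlinarith)
  have hcov : ∀ q, ∃ c : ℕ → V, ∀ j, j < len q → ∃ r ∈ R q,
      T.dist (c r) (A q.1 (off q + j)) + hh q j ≤ r := by
    intro q
    refine piece_cover hTc (hF.path q.1) (fact1 q) (p := p) (h := hh q) ?_ (hR3 q)
    intro j hj
    have h1 := fact1 q
    exact height_le (show A q.1 (off q + j) ∈ S from ⟨q.1, off q + j, by omega, rfl⟩) hd'
  choose cc hcc using hcov
  refine ⟨fun r => if hq : ∃ q, r ∈ R q then cc hq.choose r else v, ?_⟩
  intro w
  obtain ⟨i, j, hj, he⟩ := root_mem hTc hne w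
  have h5 := dist_root hTc hne w
  rw [← he] at h5
  by_cases hnear : T.dist v (A i j) ≤ M + p
  · refine ⟨M + 2 * p, hr0, ?_⟩
    have hnot : ¬ ∃ q, (M + 2 * p) ∈ R q := by
      rintro ⟨q, hq⟩
      have := hR1 q hq
      simp at this
    simp only [dif_neg hnot]
    have h6 := hd' w
    have h7 := hTc.dist_triangle (u := v) (v := A i j) (w := w)
    rw [SimpleGraph.dist_comm (u := A i j)] at h7
    omega
  · obtain ⟨s, j', hj', hoff⟩ := fact3 i j hj (fun hh' => hnear ((hintv i j hj).2 hh'))
    obtain ⟨r, hr, hr'⟩ := hcc (i, s) j' hj'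
    refine ⟨r, ?_, ?_⟩
    · have := hR1 _ hr
      simp only [Finset.mem_erase, Finset.mem_range] at this
      exact this.2
    · have hq : ∃ q, r ∈ R q := ⟨_, hr⟩
      have hch : hq.choose = (i, s) := by
        by_contra hne'
        exact Finset.disjoint_left.1 (hR2 _ _ hne') hq.choose_spec hr
      simp only [dif_pos hq, hch]
      have h8 : dS T S w ≤ hh (i, s) j' := by
        have h9 := dS_le_height (G := T) (S := S) w
        rw [← he] at h9
        show dS T S w ≤ height T S (A i (off (i, s) + j'))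
        rw [hoff]
        exact h9
      have hr'' : T.dist (cc (i, s) r) (A i j) + hh (i, s) j' ≤ r := by
        have := hr'
        simp only [hoff] at this
        exact this
      have h7 := hTc.dist_triangle (u := cc (i, s) r) (v := A i j) (w := w)
      rw [SimpleGraph.dist_comm (u := A i j)] at h7
      omega

end Pool.Agent.Helper64.Burn
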