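import Pool.Agent.Helper64.Burn.Leaves

set_option autoImplicit false

namespace Pool.Agent.Helper64.Burn

open N441b2449

/-- The burning number conjecture holds for every connected graph `G` which has a subtree `H`
with at most `l ≥ 1` leaves such that every vertex of `G` is at distance at most `p` from `H`,
or `l` pairwise disjoint paths such that every vertex is at distance at most `p` from one of
them, if `10^8 l (l + p²) ≤ ⌈√n⌉`. -/
theorem few_leaves {V : Type*} [Fintype V] (G : SimpleGraph V) (hG : G.Connected) (l p : ℕ)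
    (hl : 0 < l)
    (hyp : (∃ H : G.Subgraph, H.coe.IsTree ∧
        {x : H.verts | (H.coe.neighborSet x).ncard = 1}.ncard ≤ l ∧
        ∀ w, ∃ x ∈ H.verts, G.dist w x ≤ p) ∨
      (∃ (u v : Fin l → V) (P : ∀ i, G.Walk (u i) (v i)), (∀ i, (P i).IsPath) ∧
        (∀ i j, i ≠ j → (P i).support.Disjoint (P j).support) ∧
        ∀ w, ∃ i, ∃ x ∈ (P i).support, G.dist w x ≤ p))
    (h : 10 ^ 8 * l * (l + p ^ 2) ≤ ⌈Real.sqrt (Fintype.card V)⌉₊) :
    burningNumber G ≤ ⌈Real.sqrt (Fintype.card V)⌉₊ := by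
  classical
  have hcard : Fintype.card V ≤ ⌈Real.sqrt (Fintype.card V)⌉₊ ^ 2 := by
    have h3 : Real.sqrt (Fintype.card V) ≤ (⌈Real.sqrt (Fintype.card V)⌉₊ : ℝ) := Nat.le_ceil _
    have h4 : ((Fintype.card V : ℕ) : ℝ) ≤ ((⌈Real.sqrt (Fintype.card V)⌉₊ : ℕ) : ℝ) ^ 2 := by
      rw [← Real.sqrt_le_left (by positivity)]
      exact h3
    exact_mod_cast h4
  obtain ⟨v₀⟩ := hG.nonempty
  suffices H : ∃ (t : ℕ) (L : Fin t → ℕ) (A : Fin t → ℕ → V), t ≤ l ∧ FewPaths G L A ∧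
      ∀ w, ∃ x ∈ allVerts L A, G.dist w x ≤ p by
    obtain ⟨t, L, A, ht, hF, hd⟩ := H
    have hne : (allVerts L A).Nonempty := by
      obtain ⟨x, hx, _⟩ := hd v₀
      exact ⟨x, hx⟩
    obtain ⟨c, hc⟩ := burn_few hG hF hne (p := p) (k := ⌈Real.sqrt (Fintype.card V)⌉₊) (by
      intro w
      obtain ⟨x, hx, hx'⟩ := hd w
      exact (dS_le hx w).trans hx') hcard (by
      refine le_trans ?_ h
      have e1 : t ^ 2 ≤ l ^ 2 := Nat.pow_le_pow_left ht 2
      have e2 : t * p ^ 2 ≤ l * p ^ 2 := Nat.mul_le_mul_right _ ht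
      nlinarith)
    exact burningNumber_le_of_centers hG c hc
  rcases hyp with ⟨H, hH, hleaf, hd⟩ | ⟨u, v, P, hP, hdisj, hd⟩
  · obtain ⟨t, L, A, ht, hF, hall⟩ := tree_paths hH hl hleaf
    refine ⟨t, L, fun i j => (A i j : V), ht, ⟨fun i => ⟨(hF.path i).pos, ?_, ?_⟩, ?_⟩, ?_⟩
    · intro j hj
      exact H.coe_adj_sub _ _ ((hF.path i).adj j hj)
    · intro j j' hj hj' he
      exact (hF.path i).inj j j' hj hj' (Subtype.ext he)
    · intro i i' j j' hj hj' he
      exact hF.disj i i' j j' hj hj' (Subtype.ext he)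
    · intro w
      obtain ⟨x, hx, hx'⟩ := hd w
      obtain ⟨i, j, hj, he⟩ := hall ⟨x, hx⟩
      exact ⟨x, ⟨i, j, hj, congrArg Subtype.val he⟩, hx'⟩
  · refine ⟨l, fun i => (P i).length + 1, fun i => (P i).getVert, le_rfl,
      ⟨fun i => (pathSeq_of_walk (P i) (hP i)).1, ?_⟩, ?_⟩
    · intro i i' j j' _ _ he
      by_contra hne
      exact hdisj i i' hne ((P i).getVert_mem_support j) (by
        rw [he]; exact (P i').getVert_mem_support j')
    · intro w
      obtain ⟨i, x, hx, hx'⟩ := hd w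
      obtain ⟨j, hj, hj'⟩ := SimpleGraph.Walk.mem_support_iff_exists_getVert.1 hx
      exact ⟨x, ⟨i, j, Nat.lt_succ_of_le hj', hj⟩, hx'⟩

end Pool.Agent.Helper64.Burn
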