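import Pool.Agent.Helper64.Burn.Paths

set_option autoImplicit false

/-!
A spanning tree which contains given disjoint paths and the parent edges of the other vertices.
-/

namespace Pool.Agent.Helper64.Burn

open Finset

variable {V : Type*}

theorem isAcyclic_of_parent {F : SimpleGraph V} (pa : V → V) (rk : V → ℕ)
    (hpa : ∀ x, pa x ≠ x → rk (pa x) < rk x) (hF : ∀ x y, F.Adj x y → pa x = y ∨ pa y = x) :
    F.IsAcyclic := by
  classical
  intro v c hc
  obtain ⟨x, hx, hmax⟩ := Finset.exists_max_image c.support.toFinset rk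
    ⟨v, List.mem_toFinset.2 c.start_mem_support⟩
  rw [List.mem_toFinset] at hx
  set c' := c.rotate x hx with hc'
  have hcy : c'.IsCycle := hc.rotate hx
  have hmem : ∀ y ∈ c'.support, rk y ≤ rk x := by
    intro y hy
    refine hmax y (List.mem_toFinset.2 ?_)
    rwa [hc', SimpleGraph.Walk.mem_support_rotate_iff] at hy
  have key : ∀ y, F.Adj x y → y ∈ c'.support → pa x = y := by
    intro y hy hy'
    rcases hF x y hy with h | h
    · exact h
    · have h1 := hpa y (by rw [h]; exact hy.ne)
      rw [h] at h1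
      have := hmem y hy'
      omega
  have h1 := key c'.snd (c'.adj_snd hcy.not_nil) (c'.getVert_mem_support 1)
  have h2 := key c'.penultimate (c'.adj_penultimate hcy.not_nil).symm
    (c'.getVert_mem_support _)
  exact hcy.snd_ne_penultimate (h1.symm.trans h2)

/-- Disjoint paths of `G`. -/
structure FewPaths (G : SimpleGraph V) {t : ℕ} (L : Fin t → ℕ) (A : Fin t → ℕ → V) : Prop where
  path : ∀ i, PathSeq G (L i) (A i)
  disj : ∀ i i' j j', j < L i → j' < L i' → A i j = A i' j' → i = i'

/-- All vertices of the paths. -/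
def allVerts {t : ℕ} (L : Fin t → ℕ) (A : Fin t → ℕ → V) : Set V :=
  {x | ∃ i j, j < L i ∧ A i j = x}

theorem FewPaths.index {G : SimpleGraph V} {t : ℕ} {L : Fin t → ℕ} {A : Fin t → ℕ → V}
    (h : FewPaths G L A) {i i' : Fin t} {j j' : ℕ} (hj : j < L i) (hj' : j' < L i')
    (he : A i j = A i' j') : i = i' ∧ j = j' := by
  obtain rfl := h.disj i i' j j' hj hj' he
  exact ⟨rfl, (h.path i).inj j j' hj hj' he⟩

open Classical in
theorem exists_tree [Fintype V] {G : SimpleGraph V} (hG : G.Connected) {t : ℕ} {L : Fin t → ℕ}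
    {A : Fin t → ℕ → V} (h : FewPaths G L A) (hne : (allVerts L A).Nonempty) :
    ∃ T ≤ G, T.IsTree ∧ FewPaths T L A ∧
      ∀ w, dS T (allVerts L A) w ≤ dS G (allVerts L A) w := by
  set S := allVerts L A with hS
  let ii : V → Fin t × ℕ := fun x => if hx : x ∈ S then (hx.choose, hx.choose_spec.choose) else
    (hne.some_mem.choose, 0)
  have hii : ∀ i j, j < L i → ii (A i j) = (i, j) := by
    intro i j hj
    have hx : A i j ∈ S := ⟨i, j, hj, rfl⟩
    have h1 := hx.choose_spec.choose_spec
    simp only [ii, dif_pos hx]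
    obtain ⟨h2, h3⟩ := h.index h1.1 hj h1.2
    exact Prod.ext h2 h3
  let pa : V → V := fun x => if x ∈ S then A (ii x).1 ((ii x).2 - 1) else par G S x
  let rk : V → ℕ := fun x => if x ∈ S then (ii x).2 else Fintype.card V + dS G S x
  have hpaS : ∀ i j, j < L i → pa (A i j) = A i (j - 1) := by
    intro i j hj
    have hx : A i j ∈ S := ⟨i, j, hj, rfl⟩
    simp only [pa, if_pos hx, hii i j hj]
  have hrkS : ∀ i j, j < L i → rk (A i j) = j := by
    intro i j hj
    have hx : A i j ∈ S := ⟨i, j, hj, rfl⟩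
    simp only [rk, if_pos hx, hii i j hj]
  have hpaN : ∀ x, x ∉ S → pa x = par G S x := fun x hx => by simp only [pa, if_neg hx]
  have hrkN : ∀ x, x ∉ S → rk x = Fintype.card V + dS G S x := fun x hx => by
    simp only [rk, if_neg hx]
  have hd0 : ∀ x, x ∉ S → dS G S x ≠ 0 := fun x hx h0 => hx (mem_of_dS_eq_zero hG hne h0)
  have hpa : ∀ x, pa x ≠ x → rk (pa x) < rk x := by
    intro x hx
    by_cases hxS : x ∈ S
    · obtain ⟨i, j, hj, rfl⟩ := hxS
      rw [hpaS i j hj] at hx ⊢
      have hj0 : j ≠ 0 := by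
        rintro rfl
        exact hx rfl
      rw [hrkS i j hj, hrkS i (j - 1) (by omega)]
      omega
    · obtain ⟨_, h2⟩ := par_spec hG hne (hd0 x hxS)
      rw [hpaN x hxS, hrkN x hxS]
      by_cases hpS : par G S x ∈ S
      · obtain ⟨i, j, hj, he⟩ := hpS
        rw [← he, hrkS i j hj]
        have := (h.path i).card_le
        have := hd0 x hxS
        omega
      · rw [hrkN _ hpS]
        omega
  let F : SimpleGraph V :=
    { Adj := fun x y => x ≠ y ∧ (pa x = y ∨ pa y = x)
      symm := ⟨fun x y hxy => ⟨hxy.1.symm, hxy.2.symm⟩⟩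
      loopless := ⟨fun x hx => hx.1 rfl⟩ }
  have hpaG : ∀ x, pa x ≠ x → G.Adj x (pa x) := by
    intro x hx
    by_cases hxS : x ∈ S
    · obtain ⟨i, j, hj, rfl⟩ := hxS
      rw [hpaS i j hj] at hx ⊢
      have hj0 : j ≠ 0 := by
        rintro rfl
        exact hx rfl
      have h1 := (h.path i).adj (j - 1) (by omega)
      have e : j - 1 + 1 = j := by omega
      rw [e] at h1
      exact h1.symm
    · rw [hpaN x hxS]
      exact (par_spec hG hne (hd0 x hxS)).1
  have hFG : F ≤ G := by
    intro x y hxy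
    rcases hxy.2 with h1 | h1
    · have := hpaG x (by rw [h1]; exact hxy.1.symm)
      rwa [h1] at this
    · have := hpaG y (by rw [h1]; exact hxy.1)
      rw [h1] at this
      exact this.symm
  obtain ⟨T, hFT, hTG, hT⟩ := hG.exists_isTree_le_of_le_of_isAcyclic hFG
    (isAcyclic_of_parent pa rk hpa (fun x y hxy => hxy.2))
  refine ⟨T, hTG, hT, ⟨fun i => ⟨(h.path i).pos, ?_, (h.path i).inj⟩, h.disj⟩, ?_⟩
  · intro j hj
    refine hFT ⟨?_, Or.inr ?_⟩
    · intro he
      have := (h.path i).inj _ _ (by omega) hj he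
      omega
    · rw [hpaS i (j + 1) hj]
      simp
  · intro w
    induction hn : dS G S w using Nat.strong_induction_on generalizing w with
    | _ n ih =>
    by_cases hwS : w ∈ S
    · rw [dS_self hwS]
      exact Nat.zero_le _
    · obtain ⟨h1, h2⟩ := par_spec hG hne (hd0 w hwS)
      have h3 : T.Adj w (par G S w) := by
        refine hFT ⟨h1.ne, Or.inl ?_⟩
        exact hpaN w hwS
      have h4 := dS_adj_le hT.connected hne h3
      have h5 := ih (dS G S (par G S w)) (by omega) _ rfl
      omega

end Pool.Agent.Helper64.Burn
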