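import Mathlib

set_option autoImplicit false

/-!
A one dimensional game. A state is a cut `a`; an interval with radius `r` leads from `a` to
`a + (2r+1)` if this cut is not in the forbidden set `Z`, and always to `a + (2r+1) - 2p`.
-/

namespace Pool.Agent.Helper64.Burn

open Finset

/-- All radii in the set can be used one after another, starting at `a`, without landing in `Z`. -/
inductive Hop (Z : Finset ℕ) : Finset ℕ → ℕ → Prop
  | nil (a : ℕ) : Hop Z ∅ a
  | cons {J : Finset ℕ} {a r : ℕ} (hr : r ∈ J) (hZ : a + (2 * r + 1) ∉ Z)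
      (h : Hop Z (J.erase r) (a + (2 * r + 1))) : Hop Z J a

/-- `Reach Z p J a b`: from `a` one can get to `b` using some radii of `J`, each at most once. -/
inductive Reach (Z : Finset ℕ) (p : ℕ) : Finset ℕ → ℕ → ℕ → Prop
  | stop (J : Finset ℕ) (a : ℕ) : Reach Z p J a a
  | good {J : Finset ℕ} {a b r : ℕ} (hr : r ∈ J) (hZ : a + (2 * r + 1) ∉ Z)
      (h : Reach Z p (J.erase r) (a + (2 * r + 1)) b) : Reach Z p J a b
  | bad {J : Finset ℕ} {a b r : ℕ} (hr : r ∈ J)
      (h : Reach Z p (J.erase r) (a + (2 * r + 1) - 2 * p) b) : Reach Z p J a b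

theorem sum_erase_radii {J : Finset ℕ} {r : ℕ} (hr : r ∈ J) :
    (∑ x ∈ J.erase r, (2 * x + 1)) + (2 * r + 1) = ∑ x ∈ J, (2 * x + 1) :=
  Finset.sum_erase_add _ _ hr

theorem Hop.reach {Z : Finset ℕ} (p : ℕ) {J : Finset ℕ} {a : ℕ} (h : Hop Z J a) :
    Reach Z p J a (a + ∑ x ∈ J, (2 * x + 1)) := by
  induction h with
  | nil a => simpa using Reach.stop ∅ a
  | @cons J a r hr hZ h ih =>
    refine Reach.good hr hZ ?_
    have e := sum_erase_radii hr
    have : a + ∑ x ∈ J, (2 * x + 1) = a + (2 * r + 1) + ∑ x ∈ J.erase r, (2 * x + 1) := by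
      omega
    rw [this]
    exact ih

theorem Hop.of_free {Z : Finset ℕ} : ∀ (n : ℕ) (J : Finset ℕ) (a : ℕ), J.card = n →
    (∀ z ∈ Z, z ≤ a) → Hop Z J a := by
  intro n
  induction n with
  | zero =>
    intro J a hJ _
    rw [Finset.card_eq_zero] at hJ
    subst hJ
    exact Hop.nil a
  | succ n ih =>
    intro J a hJ hZ
    obtain ⟨r, hr⟩ : J.Nonempty := by
      rw [← Finset.card_pos]; omega
    refine Hop.cons hr (fun h => ?_) (ih _ _ ?_ ?_)
    · have := hZ _ h
      omega
    · rw [Finset.card_erase_of_mem hr]; omega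
    · intro z hz
      have := hZ z hz
      omega

/-- Changing the forbidden set below the current position does not matter. -/
theorem Hop.congr {Z Z' : Finset ℕ} {J : Finset ℕ} {a : ℕ} (h : Hop Z' J a)
    (hZ : ∀ z, a < z → z ∈ Z → z ∈ Z') : Hop Z J a := by
  induction h with
  | nil a => exact Hop.nil a
  | @cons J a r hr hZ' h ih =>
    refine Hop.cons hr (fun hh => hZ' (hZ _ (by omega) hh)) (ih ?_)
    intro z hz hz'
    exact hZ z (by omega) hz'

/-- The exchange step in the grasshopper theorem. -/
theorem Hop.exchange {Z : Finset ℕ} {z₀ m : ℕ} {J : Finset ℕ} {b : ℕ}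
    (h : Hop (Z.erase z₀) J b) :
    ∀ a, b = a + (2 * m + 1) → m ∉ J → (∀ r ∈ J, r < m) → a + (2 * m + 1) ≤ z₀ →
      (∀ z ∈ Z, a < z → z₀ ≤ z) → a + (2 * m + 1) + ∑ x ∈ J, (2 * x + 1) ∉ Z →
      Hop Z (insert m J) a := by
  induction h with
  | nil b =>
    intro a hb _ _ hz _ hf
    refine Hop.cons (r := m) (by simp) (by simpa using hf) ?_
    simp only [insert_empty_eq, erase_singleton]
    exact Hop.nil _
  | @cons J b r hr hZ h ih =>
    intro a hb hm hlt hz hmin hf
    subst hb
    have hrm : r < m := hlt r hr
    have hrm' : r ≠ m := by omega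
    have e := sum_erase_radii hr
    have hin : r ∈ insert m J := Finset.mem_insert_of_mem hr
    have hmJr : m ∉ J.erase r := fun h => hm (Finset.mem_of_mem_erase h)
    have hins : (insert m J).erase r = insert m (J.erase r) := by
      rw [Finset.erase_insert_of_ne (Ne.symm hrm')]
    have hins2 : (insert m J).erase m = J := Finset.erase_insert hm
    by_cases h1 : a + (2 * m + 1) + (2 * r + 1) ≤ z₀
    · -- jump `r` first and continue
      refine Hop.cons hin ?_ ?_
      · intro hh
        have := hmin _ hh (by omega)
        omega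
      · rw [hins]
        refine ih (a + (2 * r + 1)) (by omega) hmJr ?_ (by omega) ?_ ?_
        · intro x hx
          exact hlt x (Finset.mem_of_mem_erase hx)
        · intro z hz' hz''
          exact hmin z hz' (by omega)
        · intro hh
          apply hf
          have : a + (2 * m + 1) + ∑ x ∈ J, (2 * x + 1) =
            a + (2 * r + 1) + (2 * m + 1) + ∑ x ∈ J.erase r, (2 * x + 1) := by omega
          rw [this]
          exact hh
    · push Not at h1
      have hland : a + (2 * m + 1) + (2 * r + 1) ∉ Z := by
        intro hh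
        apply hZ
        rw [Finset.mem_erase]
        exact ⟨by omega, hh⟩
      have hrest : Hop Z (J.erase r) (a + (2 * m + 1) + (2 * r + 1)) := by
        refine h.congr ?_
        intro z hz1 hz2
        rw [Finset.mem_erase]
        exact ⟨by omega, hz2⟩
      by_cases h2 : a + (2 * m + 1) = z₀
      · -- jump `r`, then `m`
        refine Hop.cons hin ?_ ?_
        · intro hh
          have := hmin _ hh (by omega)
          omega
        · rw [hins]
          have e3 : a + (2 * r + 1) + (2 * m + 1) = a + (2 * m + 1) + (2 * r + 1) := by omega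
          refine Hop.cons (r := m) (by simp) ?_ ?_
          · rw [e3]; exact hland
          · rw [Finset.erase_insert hmJr, e3]; exact hrest
      · -- jump `m`, then `r`
        refine Hop.cons (r := m) (by simp) ?_ ?_
        · intro hh
          have := hmin _ hh (by omega)
          omega
        · rw [hins2]
          exact Hop.cons hr hland hrest

/-- The grasshopper theorem (IMO 2009, Problem 6) for the jumps `2r+1`. -/
theorem grasshopper (Z : Finset ℕ) : ∀ (n : ℕ) (J : Finset ℕ) (a : ℕ), J.card = n →
    (Z.filter (fun z => a < z)).card ≤ n - 1 → a + ∑ x ∈ J, (2 * x + 1) ∉ Z → Hop Z J a := by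
  intro n
  induction n using Nat.strong_induction_on generalizing Z with
  | _ n IH =>
  intro J a hJ hc hf
  rcases Nat.eq_zero_or_pos n with hn | hn
  · subst hn
    rw [Finset.card_eq_zero] at hJ
    subst hJ
    exact Hop.nil a
  have hne : J.Nonempty := by rw [← Finset.card_pos]; omega
  set m := J.max' hne with hm
  have hmJ : m ∈ J := Finset.max'_mem _ _
  have hmax : ∀ x ∈ J, x ≤ m := fun x hx => Finset.le_max' _ _ hx
  rcases (Z.filter (fun z => a < z)).eq_empty_or_nonempty with hZe | hZne
  · refine Hop.of_free n J a hJ ?_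
    intro z hz
    by_contra hlt
    push Not at hlt
    have : z ∈ Z.filter (fun z => a < z) := Finset.mem_filter.2 ⟨hz, hlt⟩
    rw [hZe] at this
    simp at this
  set z₀ := (Z.filter (fun z => a < z)).min' hZne with hz₀
  have hz₀mem : z₀ ∈ Z.filter (fun z => a < z) := Finset.min'_mem _ _
  obtain ⟨hz₀Z, hz₀a⟩ := Finset.mem_filter.1 hz₀mem
  have hmin : ∀ z ∈ Z, a < z → z₀ ≤ z := fun z hz hz' =>
    Finset.min'_le _ _ (Finset.mem_filter.2 ⟨hz, hz'⟩)
  have hcardJm : (J.erase m).card = n - 1 := by rw [Finset.card_erase_of_mem hmJ, hJ]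
  have e := sum_erase_radii hmJ
  by_cases hcase : a + (2 * m + 1) ≤ z₀
  · -- no forbidden point before the longest jump
    have key : Hop (Z.erase z₀) (J.erase m) (a + (2 * m + 1)) := by
      refine IH (n - 1) (by omega) _ _ _ hcardJm ?_ ?_
      · have hsub : (Z.erase z₀).filter (fun z => a + (2 * m + 1) < z) ⊆
            (Z.filter (fun z => a < z)).erase z₀ := by
          intro z hz
          simp only [Finset.mem_filter, Finset.mem_erase] at hz ⊢
          exact ⟨hz.1.1, hz.1.2, by omega⟩
        have h1 := Finset.card_le_card hsub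
        rw [Finset.card_erase_of_mem hz₀mem] at h1
        omega
      · intro hh
        apply hf
        have : a + ∑ x ∈ J, (2 * x + 1) = a + (2 * m + 1) + ∑ x ∈ J.erase m, (2 * x + 1) := by
          omega
        rw [this]
        exact Finset.mem_of_mem_erase hh
    have := key.exchange a rfl (Finset.notMem_erase m J) ?_ hcase hmin ?_
    · rwa [Finset.insert_erase hmJ] at this
    · intro r hr
      have h1 := hmax r (Finset.mem_of_mem_erase hr)
      have h2 := (Finset.mem_erase.1 hr).1
      omega
    · intro hh
      apply hf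
      have : a + ∑ x ∈ J, (2 * x + 1) = a + (2 * m + 1) + ∑ x ∈ J.erase m, (2 * x + 1) := by
        omega
      rw [this]
      exact hh
  push Not at hcase
  by_cases hm1 : a + (2 * m + 1) ∈ Z
  · -- two jumps
    have hex : ∃ s ∈ J.erase m, a + (2 * s + 1) ∉ Z ∧ a + (2 * s + 1) + (2 * m + 1) ∉ Z := by
      by_contra hcon
      push Not at hcon
      -- every `s` gives an element of `Z` different from `a + (2m+1)`
      have hg : ∀ s ∈ J.erase m, ∃ z ∈ (Z.filter (fun z => a < z)).erase (a + (2 * m + 1)),
          z = a + (2 * s + 1) ∨ z = a + (2 * s + 1) + (2 * m + 1) := by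
        intro s hs
        have hsm : s < m := by
          have h1 := hmax s (Finset.mem_of_mem_erase hs)
          have h2 := (Finset.mem_erase.1 hs).1
          omega
        by_cases h : a + (2 * s + 1) ∈ Z
        · refine ⟨_, ?_, Or.inl rfl⟩
          simp only [Finset.mem_erase, Finset.mem_filter]
          exact ⟨by omega, h, by omega⟩
        · refine ⟨_, ?_, Or.inr rfl⟩
          simp only [Finset.mem_erase, Finset.mem_filter]
          exact ⟨by omega, hcon s hs h, by omega⟩
      choose! g hg1 hg2 using hg
      have hle : (J.erase m).card ≤ ((Z.filter (fun z => a < z)).erase (a + (2 * m + 1))).card := by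
        refine Finset.card_le_card_of_injOn g hg1 ?_
        intro s hs s' hs' hss
        have hs0 := hs
        have hs0' := hs'
        rw [Finset.mem_coe] at hs0 hs0'
        have h1 := hmax s (Finset.mem_of_mem_erase hs0)
        have h2 := hmax s' (Finset.mem_of_mem_erase hs0')
        have h3 := (Finset.mem_erase.1 hs0).1
        have h4 := (Finset.mem_erase.1 hs0').1
        rcases hg2 s hs0 with h | h <;> rcases hg2 s' hs0' with h' | h' <;> omega
      rw [Finset.card_erase_of_mem (Finset.mem_filter.2 ⟨hm1, by omega⟩), hcardJm] at hle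
      have hpos : 0 < (Z.filter (fun z => a < z)).card := Finset.card_pos.2 hZne
      have h2 : 2 ≤ (Z.filter (fun z => a < z)).card := by
        have : ({z₀, a + (2 * m + 1)} : Finset ℕ) ⊆ Z.filter (fun z => a < z) := by
          intro z hz
          simp only [Finset.mem_insert, Finset.mem_singleton] at hz
          rcases hz with rfl | rfl
          · exact hz₀mem
          · exact Finset.mem_filter.2 ⟨hm1, by omega⟩
        have h5 := Finset.card_le_card this
        rw [Finset.card_pair (by omega)] at h5
        exact h5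
      omega
    obtain ⟨s, hs, hs1, hs2⟩ := hex
    have hsJ : s ∈ J := Finset.mem_of_mem_erase hs
    have hsm : s ≠ m := (Finset.mem_erase.1 hs).1
    have hms : m ∈ J.erase s := Finset.mem_erase.2 ⟨Ne.symm hsm, hmJ⟩
    refine Hop.cons hsJ hs1 (Hop.cons hms hs2 ?_)
    have hcard2 : ((J.erase s).erase m).card = n - 2 := by
      rw [Finset.card_erase_of_mem hms, Finset.card_erase_of_mem hsJ, hJ]; omega
    have e1 := sum_erase_radii hsJ
    have e2 := sum_erase_radii hms
    have h2 : ({z₀, a + (2 * m + 1)} : Finset ℕ) ⊆ Z.filter (fun z => a < z) := by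
      intro z hz
      simp only [Finset.mem_insert, Finset.mem_singleton] at hz
      rcases hz with rfl | rfl
      · exact hz₀mem
      · exact Finset.mem_filter.2 ⟨hm1, by omega⟩
    refine IH (n - 2) (by omega) _ _ _ hcard2 ?_ ?_
    · have hsub : Z.filter (fun z => a + (2 * s + 1) + (2 * m + 1) < z) ⊆
          (Z.filter (fun z => a < z)) \ {z₀, a + (2 * m + 1)} := by
        intro z hz
        simp only [Finset.mem_filter, Finset.mem_sdiff, Finset.mem_insert,
          Finset.mem_singleton] at hz ⊢
        exact ⟨⟨hz.1, by omega⟩, by omega⟩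
      have h1 := Finset.card_le_card hsub
      rw [Finset.card_sdiff_of_subset h2, Finset.card_pair (by omega)] at h1
      omega
    · intro hh
      apply hf
      have : a + ∑ x ∈ J, (2 * x + 1) =
          a + (2 * s + 1) + (2 * m + 1) + ∑ x ∈ (J.erase s).erase m, (2 * x + 1) := by
        omega
      rw [this]
      exact hh
  · refine Hop.cons hmJ hm1 ?_
    refine IH (n - 1) (by omega) _ _ _ hcardJm ?_ ?_
    · have hsub : Z.filter (fun z => a + (2 * m + 1) < z) ⊆
          (Z.filter (fun z => a < z)).erase z₀ := by
        intro z hz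
        simp only [Finset.mem_filter, Finset.mem_erase] at hz ⊢
        exact ⟨by omega, hz.1, by omega⟩
      have h1 := Finset.card_le_card hsub
      rw [Finset.card_erase_of_mem hz₀mem] at h1
      omega
    · intro hh
      apply hf
      have : a + ∑ x ∈ J, (2 * x + 1) = a + (2 * m + 1) + ∑ x ∈ J.erase m, (2 * x + 1) := by
        omega
      rw [this]
      exact hh

end Pool.Agent.Helper64.Burn
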