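import Pool.Agent.Helper64.Burn.Few

set_option autoImplicit false

/-!
The vertices of a tree with at most `ℓ` leaves can be partitioned into at most `ℓ` paths.
-/

namespace Pool.Agent.Helper64.Burn

open Finset

variable {W : Type*}

theorem parent_unique {T : SimpleGraph W} (hT : T.IsTree) {r x y y' : W} (h : T.Adj x y)
    (h' : T.Adj x y') (hd : T.dist y r + 1 = T.dist x r) (hd' : T.dist y' r + 1 = T.dist x r) :
    y = y' := by
  obtain ⟨q, hq⟩ := hT.connected.exists_walk_length_eq_dist y r
  obtain ⟨q', hq'⟩ := hT.connected.exists_walk_length_eq_dist y' r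
  have h1 : (SimpleGraph.Walk.cons h q).IsPath := by
    refine SimpleGraph.Walk.isPath_of_length_eq_dist _ ?_
    rw [SimpleGraph.Walk.length_cons]
    omega
  have h2 : (SimpleGraph.Walk.cons h' q').IsPath := by
    refine SimpleGraph.Walk.isPath_of_length_eq_dist _ ?_
    rw [SimpleGraph.Walk.length_cons]
    omega
  have h3 := (hT.isAcyclic.subsingleton_path x r).elim ⟨_, h1⟩ ⟨_, h2⟩
  have h4 := congrArg (fun P : T.Path x r => (P : T.Walk x r).snd) h3
  simpa using h4

open Classical in
/-- A child of `x` (or `x` itself if there is none). -/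
noncomputable def hc (T : SimpleGraph W) (S : Set W) (x : W) : W :=
  if h : ∃ y, par T S y = x ∧ dS T S y ≠ 0 then h.choose else x

/-- `x` has no children. -/
def Leafy (T : SimpleGraph W) (S : Set W) (x : W) : Prop := ¬ ∃ y, par T S y = x ∧ dS T S y ≠ 0

section

variable {T : SimpleGraph W} (hT : T.Connected) {S : Set W} (hS : S.Nonempty)

theorem hc_leafy {x : W} (h : Leafy T S x) : hc T S x = x := by
  rw [hc, dif_neg h]

include hT hS

theorem hc_spec {x : W} (h : ¬ Leafy T S x) :
    par T S (hc T S x) = x ∧ dS T S (hc T S x) = dS T S x + 1 := by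
  have hex : ∃ y, par T S y = x ∧ dS T S y ≠ 0 := not_not.1 h
  have e : hc T S x = hex.choose := by rw [hc, dif_pos hex]
  obtain ⟨h1, h2⟩ := hex.choose_spec
  rw [e]
  refine ⟨h1, ?_⟩
  have h3 := (par_spec hT hS h2).2
  rw [h1] at h3
  exact h3.symm

theorem hc_iter_or (m : ℕ) : ∀ x, Leafy T S ((hc T S)^[m] x) ∨
    dS T S ((hc T S)^[m] x) = dS T S x + m := by
  induction m with
  | zero => intro x; exact Or.inr rfl
  | succ m ih =>
    intro x
    rw [Function.iterate_succ_apply']
    by_cases hl : Leafy T S ((hc T S)^[m] x)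
    · left
      rw [hc_leafy hl]
      exact hl
    · right
      rcases ih x with h1 | h1
      · exact absurd h1 hl
      · rw [(hc_spec hT hS hl).2, h1]
        omega

theorem hc_iter_par (m : ℕ) : ∀ x, dS T S x ≤ dS T S ((hc T S)^[m] x) ∧
    (par T S)^[dS T S ((hc T S)^[m] x) - dS T S x] ((hc T S)^[m] x) = x := by
  induction m with
  | zero => intro x; simp
  | succ m ih =>
    intro x
    rw [Function.iterate_succ_apply']
    obtain ⟨h1, h2⟩ := ih x
    by_cases hl : Leafy T S ((hc T S)^[m] x)
    · rw [hc_leafy hl]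
      exact ⟨h1, h2⟩
    · obtain ⟨h3, h4⟩ := hc_spec hT hS hl
      refine ⟨by omega, ?_⟩
      have e : dS T S (hc T S ((hc T S)^[m] x)) - dS T S x =
          (dS T S ((hc T S)^[m] x) - dS T S x) + 1 := by omega
      rw [e, Function.iterate_succ_apply, h3, h2]

end

open Classical in
theorem tree_paths [Fintype W] {T : SimpleGraph W} (hT : T.IsTree) {l : ℕ} (hl : 0 < l)
    (hleaf : {x | (T.neighborSet x).ncard = 1}.ncard ≤ l) :
    ∃ (t : ℕ) (L : Fin t → ℕ) (A : Fin t → ℕ → W), t ≤ l ∧ FewPaths T L A ∧
      ∀ w, w ∈ allVerts L A := by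
  have hTc := hT.connected
  obtain ⟨r⟩ := hTc.nonempty
  set S : Set W := {r} with hS
  have hSne : S.Nonempty := Set.singleton_nonempty r
  have hdS : ∀ x, dS T S x = T.dist x r := by
    intro x
    obtain ⟨y, hy, hy'⟩ := dS_exists (G := T) hSne x
    rw [Set.mem_singleton_iff.1 hy] at hy'
    exact hy'.symm
  set D := Finset.univ.sup (fun x => dS T S x) with hD
  have hDle : ∀ x, dS T S x ≤ D := fun x => Finset.le_sup (f := fun x => dS T S x) (Finset.mem_univ x)
  set lam : W → W := (hc T S)^[D + 1] with hlam
  have hlamL : ∀ x, Leafy T S (lam x) := by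
    intro x
    rcases hc_iter_or hTc hSne (D + 1) x with h1 | h1
    · exact h1
    · have := hDle ((hc T S)^[D + 1] x)
      omega
  have hlamfix : ∀ x, Leafy T S x → lam x = x := by
    intro x hx
    have : ∀ m, (hc T S)^[m] x = x := by
      intro m
      induction m with
      | zero => rfl
      | succ m ih => rw [Function.iterate_succ_apply', ih, hc_leafy hx]
    exact this _
  have hlamhc : ∀ x, lam (hc T S x) = lam x := by
    intro x
    have h1 : (hc T S)^[D + 1] (hc T S x) = hc T S ((hc T S)^[D + 1] x) := by
      rw [← Function.iterate_succ_apply, Function.iterate_succ_apply']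
    rw [hlam, h1]
    exact hc_leafy (hlamL x)
  have hlampar : ∀ x, dS T S x ≤ dS T S (lam x) ∧
      (par T S)^[dS T S (lam x) - dS T S x] (lam x) = x := hc_iter_par hTc hSne (D + 1)
  have hdown : ∀ x j, Leafy T S x → j + 1 ≤ dS T S x → lam ((par T S)^[j + 1] x) = x →
      lam ((par T S)^[j] x) = x := by
    intro x j hx hj hlj
    have hd1 := dS_iter hTc hSne x j (by omega)
    have hd2 := dS_iter hTc hSne x (j + 1) hj
    have hy : ¬ Leafy T S ((par T S)^[j + 1] x) := by
      refine not_not.2 ⟨(par T S)^[j] x, ?_, by omega⟩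
      rw [Function.iterate_succ_apply']
    obtain ⟨h3, h4⟩ := hc_spec hTc hSne hy
    have h5 : lam (hc T S ((par T S)^[j + 1] x)) = x := by rw [hlamhc, hlj]
    have h6 := (hlampar (hc T S ((par T S)^[j + 1] x))).2
    rw [h5, h4, hd2] at h6
    have e : dS T S x - (dS T S x - (j + 1) + 1) = j := by omega
    rw [e] at h6
    rw [h6, h5]
  have hdown' : ∀ x j i, Leafy T S x → i ≤ j → j ≤ dS T S x → lam ((par T S)^[j] x) = x →
      lam ((par T S)^[i] x) = x := by
    intro x j
    induction j with
    | zero =>
      intro i hx hi _ h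
      have : i = 0 := by omega
      subst this
      exact h
    | succ j ih =>
      intro i hx hi hj h
      rcases Nat.lt_or_ge j i with h1 | h1
      · have : i = j + 1 := by omega
        subst this
        exact h
      · exact ih i hx h1 (by omega) (hdown x j hx hj h)
  let Lx : W → ℕ := fun x => Nat.findGreatest (fun j => lam ((par T S)^[j] x) = x) (dS T S x) + 1
  have hL1 : ∀ x, Leafy T S x → ∀ j, j < Lx x → j ≤ dS T S x ∧ lam ((par T S)^[j] x) = x := by
    intro x hx j hj
    have h0 : lam ((par T S)^[0] x) = x := hlamfix x hx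
    have h1 : lam ((par T S)^[Nat.findGreatest (fun j => lam ((par T S)^[j] x) = x) (dS T S x)] x) =
        x := Nat.findGreatest_spec (P := fun j => lam ((par T S)^[j] x) = x) (Nat.zero_le _) h0
    have h2 : Nat.findGreatest (fun j => lam ((par T S)^[j] x) = x) (dS T S x) ≤ dS T S x :=
      Nat.findGreatest_le _
    have h3 : j ≤ Nat.findGreatest (fun j => lam ((par T S)^[j] x) = x) (dS T S x) :=
      Nat.lt_succ_iff.1 hj
    exact ⟨h3.trans h2, hdown' x _ j hx h3 h2 h1⟩
  have hL2 : ∀ x j, j ≤ dS T S x → lam ((par T S)^[j] x) = x → j < Lx x := by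
    intro x j hj h
    exact Nat.lt_succ_of_le (Nat.le_findGreatest hj h)
  -- the index type
  let ι := {x : W // Leafy T S x}
  let e := Fintype.equivFin ι
  refine ⟨Fintype.card ι, fun i => Lx (e.symm i).1, fun i j => (par T S)^[j] (e.symm i).1,
    ?_, ⟨fun i => ⟨Nat.succ_pos _, ?_, ?_⟩, ?_⟩, ?_⟩
  · -- counting
    rw [Fintype.card_subtype]
    by_cases hr : Leafy T S r
    · refine le_trans ?_ (Nat.one_le_iff_ne_zero.2 hl.ne')
      refine Finset.card_le_one.2 ?_
      have hall : ∀ w : W, w = r := by
        intro w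
        by_contra hw
        have h0 : dS T S w ≠ 0 := by
          intro h0
          exact hw (mem_of_dS_eq_zero hTc hSne h0)
        refine hr ⟨(par T S)^[dS T S w - 1] w, ?_, ?_⟩
        · have h1 := root_mem hTc hSne w
          rw [root] at h1
          have h2 : (par T S)^[dS T S w] w = par T S ((par T S)^[dS T S w - 1] w) := by
            obtain ⟨m, hm⟩ := Nat.exists_eq_succ_of_ne_zero h0
            rw [hm, Nat.succ_sub_one, Function.iterate_succ_apply']
          rw [← h2]
          exact h1
        · rw [dS_iter hTc hSne w _ (by omega)]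
          omega
      intro a _ b _
      rw [hall a, hall b]
    · refine le_trans ?_ hleaf
      rw [Set.ncard_eq_toFinset_card']
      refine Finset.card_le_card ?_
      intro x hx
      simp only [Finset.mem_filter, Finset.mem_univ, true_and] at hx
      rw [Set.mem_toFinset, Set.mem_ofPred_eq]
      have hxr : x ≠ r := by
        rintro rfl
        exact hr hx
      have hx0 : dS T S x ≠ 0 := fun h0 => hxr (mem_of_dS_eq_zero hTc hSne h0)
      obtain ⟨hp1, hp2⟩ := par_spec hTc hSne hx0
      have : T.neighborSet x = {par T S x} := by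
        ext y
        rw [SimpleGraph.mem_neighborSet, Set.mem_singleton_iff]
        constructor
        · intro hy
          rcases hT.dist_eq_dist_add_one_of_adj r hy with h1 | h1
          · refine parent_unique hT hy hp1 (r := r) ?_ ?_
            · rw [SimpleGraph.dist_comm (u := y), SimpleGraph.dist_comm (u := x)]
              exact h1.symm
            · rw [← hdS, ← hdS]
              exact hp2
          · exfalso
            rw [SimpleGraph.dist_comm (v := y), SimpleGraph.dist_comm (v := x), ← hdS, ← hdS] at h1
            have hy0 : dS T S y ≠ 0 := by omega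
            obtain ⟨hq1, hq2⟩ := par_spec hTc hSne hy0
            refine hx ⟨y, ?_, hy0⟩
            refine parent_unique hT hq1 hy.symm (r := r) ?_ ?_
            · rw [← hdS, ← hdS]
              exact hq2
            · rw [← hdS, ← hdS]
              omega
        · rintro rfl
          exact hp1
      rw [this]
      exact Set.ncard_singleton _
  · intro j hj
    have h1 := hL1 _ (e.symm i).2 (j + 1) hj
    have h2 := dS_iter hTc hSne (e.symm i).1 j (by omega)
    show T.Adj ((par T S)^[j] (e.symm i).1) ((par T S)^[j + 1] (e.symm i).1)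
    rw [Function.iterate_succ_apply']
    exact (par_spec hTc hSne (by omega)).1
  · intro j j' hj hj' he
    have h1 := hL1 _ (e.symm i).2 j hj
    have h2 := hL1 _ (e.symm i).2 j' hj'
    have h3 := dS_iter hTc hSne (e.symm i).1 j h1.1
    have h4 := dS_iter hTc hSne (e.symm i).1 j' h2.1
    rw [he, h4] at h3
    omega
  · intro i i' j j' hj hj' he
    have h1 := hL1 _ (e.symm i).2 j hj
    have h2 := hL1 _ (e.symm i').2 j' hj'
    have h3 : lam ((par T S)^[j] (e.symm i).1) = lam ((par T S)^[j'] (e.symm i').1) :=
      congrArg lam he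
    rw [h1.2, h2.2] at h3
    exact e.symm.injective (Subtype.ext h3)
  · intro w
    refine ⟨e ⟨lam w, hlamL w⟩, dS T S (lam w) - dS T S w, ?_, ?_⟩
    · simp only [Equiv.symm_apply_apply]
      refine hL2 _ _ (Nat.sub_le _ _) ?_
      rw [(hlampar w).2]
    · simp only [Equiv.symm_apply_apply]
      exact (hlampar w).2

end Pool.Agent.Helper64.Burn
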