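import Pool.Agent.Helper64.Burn.Game

set_option autoImplicit false

namespace Pool.Agent.Helper64.Burn

open Finset

/-- The greedy order: few bad cuts. -/
theorem greedy (Z : Finset ℕ) (p : ℕ) : ∀ (n : ℕ) (J : Finset ℕ) (a : ℕ), J.card = n →
    ∃ b B : ℕ, Reach Z p J a b ∧ a + ∑ x ∈ J, (2 * x + 1) ≤ b + 2 * p * B ∧ B ≤ n ∧
      (B - p) * (B - p + 1) ≤ 2 * (Z.filter (fun z => a < z)).card := by
  intro n
  induction n with
  | zero =>
    intro J a hJ
    rw [Finset.card_eq_zero] at hJ
    subst hJ
    exact ⟨a, 0, Reach.stop _ _, by simp, le_refl _, by simp⟩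
  | succ n ih =>
    intro J a hJ
    by_cases hgood : ∃ r ∈ J, a + (2 * r + 1) ∉ Z
    · obtain ⟨r, hr, hrZ⟩ := hgood
      have hc : (J.erase r).card = n := by rw [Finset.card_erase_of_mem hr]; omega
      obtain ⟨b, B, h1, h2, h3, h4⟩ := ih (J.erase r) (a + (2 * r + 1)) hc
      refine ⟨b, B, Reach.good hr hrZ h1, ?_, by omega, ?_⟩
      · have e := sum_erase_radii hr
        omega
      · refine le_trans h4 (Nat.mul_le_mul_left _ (Finset.card_le_card ?_))
        intro z hz
        simp only [Finset.mem_filter] at hz ⊢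
        exact ⟨hz.1, by omega⟩
    · push Not at hgood
      have hne : J.Nonempty := by rw [← Finset.card_pos]; omega
      set m := J.max' hne with hm
      have hmJ : m ∈ J := Finset.max'_mem _ _
      have hmax : ∀ x ∈ J, x ≤ m := fun x hx => Finset.le_max' _ _ hx
      -- at most `p` of the radii are in `(m-p, m]`
      have hsub : ∀ (J' : Finset ℕ), J' ⊆ J → (∀ x ∈ J', m < x + p) → J'.card ≤ p := by
        intro J' hJ' hx
        have h1 : J' ⊆ Finset.Icc (m + 1 - p) m := by
          intro x hx'
          have h2 := hx x hx'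
          have h3 := hmax x (hJ' hx')
          exact Finset.mem_Icc.2 ⟨by omega, h3⟩
        have h2 := Finset.card_le_card h1
        rw [Nat.card_Icc] at h2
        omega
      by_cases hbig : 2 * p ≤ 2 * m + 1
      · have hc : (J.erase m).card = n := by rw [Finset.card_erase_of_mem hmJ]; omega
        obtain ⟨b, B, h1, h2, h3, h4⟩ := ih (J.erase m) (a + (2 * m + 1) - 2 * p) hc
        have e := sum_erase_radii hmJ
        refine ⟨b, B + 1, Reach.bad hmJ h1, ?_, by omega, ?_⟩
        · have : 2 * p * (B + 1) = 2 * p * B + 2 * p := by ring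
          omega
        · -- many forbidden cuts are passed
          have hpass : (Z.filter (fun z => a + (2 * m + 1) - 2 * p < z)).card + (n + 1 - p) ≤
              (Z.filter (fun z => a < z)).card := by
            set P := (J.filter (fun x => x + p ≤ m)).image (fun x => a + (2 * x + 1)) with hP
            have hPc : P.card = (J.filter (fun x => x + p ≤ m)).card := by
              rw [hP, Finset.card_image_of_injective]
              intro x y hxy
              simp only at hxy
              omega
            have hsplit := Finset.card_filter_add_card_filter_not (s := J) (fun x => x + p ≤ m)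
            have hle := hsub (J.filter (fun x => ¬ (x + p ≤ m))) (Finset.filter_subset _ _) (by
              intro x hx
              have := (Finset.mem_filter.1 hx).2
              omega)
            have hdisj : Disjoint (Z.filter (fun z => a + (2 * m + 1) - 2 * p < z)) P := by
              rw [Finset.disjoint_left]
              intro z hz hz'
              simp only [hP, Finset.mem_image, Finset.mem_filter] at hz hz'
              obtain ⟨x, ⟨_, hx⟩, rfl⟩ := hz'
              omega
            have hun : (Z.filter (fun z => a + (2 * m + 1) - 2 * p < z)) ∪ P ⊆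
                Z.filter (fun z => a < z) := by
              intro z hz
              rw [Finset.mem_union] at hz
              rcases hz with hz | hz
              · simp only [Finset.mem_filter] at hz ⊢
                exact ⟨hz.1, by omega⟩
              · simp only [hP, Finset.mem_image, Finset.mem_filter] at hz ⊢
                obtain ⟨x, ⟨hxJ, _⟩, rfl⟩ := hz
                exact ⟨hgood x hxJ, by omega⟩
            have h5 := Finset.card_le_card hun
            rw [Finset.card_union_of_disjoint hdisj, hPc] at h5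
            omega
          rcases Nat.lt_or_ge B p with hBp | hBp
          · have : B + 1 - p = 0 := by omega
            rw [this]
            simp
          · obtain ⟨t, rfl⟩ := Nat.exists_eq_add_of_le hBp
            have e1 : p + t - p = t := by omega
            have e2 : p + t + 1 - p = t + 1 := by omega
            rw [e1] at h4
            rw [e2]
            have h6 : t + 1 ≤ n + 1 - p := by omega
            nlinarith
      · -- all radii are small: stop
        refine ⟨a, n + 1, Reach.stop _ _, ?_, le_refl _, ?_⟩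
        · have h1 : ∑ x ∈ J, (2 * x + 1) ≤ ∑ _x ∈ J, 2 * p := by
            refine Finset.sum_le_sum ?_
            intro x hx
            have := hmax x hx
            omega
          rw [Finset.sum_const, smul_eq_mul, hJ] at h1
          nlinarith
        · have h1 := hsub J (Finset.Subset.refl _) (by intro x _; omega)
          have : n + 1 - p = 0 := by omega
          rw [this]
          simp

/-- A successful play gives centres for the intervals. -/
theorem Reach.cover {Z : Finset ℕ} {p : ℕ} {L : ℕ} {h : ℕ → ℕ}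
    (hp : ∀ i, i < L → h i ≤ p)
    (hZ : ∀ b, b ∉ Z → ∀ i, i < L → i < b + h i → i + h i < b) {J : Finset ℕ} {a b : ℕ}
    (hr : Reach Z p J a b) :
    ∃ c : ℕ → ℕ, ∀ i, i < L → a + h i ≤ i → i < b + h i →
      ∃ r ∈ J, i + h i ≤ c r + r ∧ c r + h i ≤ i + r := by
  induction hr with
  | stop J a =>
    refine ⟨fun _ => 0, ?_⟩
    intro i _ h1 h2
    omega
  | @good J a b r hr hrZ h0 ih =>
    obtain ⟨c, hc⟩ := ih
    refine ⟨fun x => if x = r then a + r else c x, ?_⟩
    intro i hi h1 h2
    rcases Nat.lt_or_ge i (a + (2 * r + 1) + h i) with h3 | h3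
    · have h4 := hZ _ hrZ i hi h3
      refine ⟨r, hr, ?_⟩
      simp only [if_true]
      omega
    · obtain ⟨x, hx, hx1, hx2⟩ := hc i hi h3 h2
      have hxr : x ≠ r := (Finset.mem_erase.1 hx).1
      refine ⟨x, Finset.mem_of_mem_erase hx, ?_⟩
      simp only [if_neg hxr]
      exact ⟨hx1, hx2⟩
  | @bad J a b r hr h0 ih =>
    obtain ⟨c, hc⟩ := ih
    refine ⟨fun x => if x = r then a + r else c x, ?_⟩
    intro i hi h1 h2
    have hpi := hp i hi
    rcases Nat.lt_or_ge i (a + (2 * r + 1) - 2 * p + h i) with h3 | h3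
    · refine ⟨r, hr, ?_⟩
      simp only [if_true]
      omega
    · obtain ⟨x, hx, hx1, hx2⟩ := hc i hi h3 h2
      have hxr : x ≠ r := (Finset.mem_erase.1 hx).1
      refine ⟨x, Finset.mem_of_mem_erase hx, ?_⟩
      simp only [if_neg hxr]
      exact ⟨hx1, hx2⟩

/-- The cuts which separate some window `[i - h i, i + h i]`. -/
def cuts (L : ℕ) (h : ℕ → ℕ) : Finset ℕ :=
  (Finset.range L).biUnion fun i => Finset.Ioc (i - h i) (i + h i)

theorem card_cuts {L : ℕ} {h : ℕ → ℕ} (hl : ∀ i, i < L → h i ≤ i) :
    (cuts L h).card ≤ 2 * ∑ i ∈ Finset.range L, h i := by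
  rw [cuts, Finset.mul_sum]
  refine le_trans Finset.card_biUnion_le (Finset.sum_le_sum ?_)
  intro i hi
  have := hl i (Finset.mem_range.1 hi)
  rw [Nat.card_Ioc]
  omega

theorem not_mem_cuts {L : ℕ} {h : ℕ → ℕ} (hl : ∀ i, i < L → h i ≤ i) {b : ℕ}
    (hb : b ∉ cuts L h) {i : ℕ} (hi : i < L) (hib : i < b + h i) : i + h i < b := by
  by_contra hcon
  push Not at hcon
  apply hb
  have := hl i hi
  rw [cuts, Finset.mem_biUnion]
  exact ⟨i, Finset.mem_range.2 hi, Finset.mem_Ioc.2 ⟨by omega, hcon⟩⟩

theorem mem_cuts_lt {L : ℕ} {h : ℕ → ℕ} (hr : ∀ i, i < L → i + h i < L) {b : ℕ}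
    (hb : b ∈ cuts L h) : b < L := by
  rw [cuts, Finset.mem_biUnion] at hb
  obtain ⟨i, hi, hi'⟩ := hb
  have := hr i (Finset.mem_range.1 hi)
  have := (Finset.mem_Ioc.1 hi').2
  omega

theorem sum_range_radii (k : ℕ) : ∑ x ∈ Finset.range k, (2 * x + 1) = k ^ 2 := by
  induction k with
  | zero => simp
  | succ k ih => rw [Finset.sum_range_succ, ih]; ring

/-- Covering a line with windows, with a given set of radii and a loss of about `10 p^2`. -/
theorem line_cover {L p : ℕ} {h : ℕ → ℕ} {J : Finset ℕ} (hp : ∀ i, i < L → h i ≤ p)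
    (hl : ∀ i, i < L → h i ≤ i)
    (hJ : 2 * L + 20 * p ^ 2 + ∑ i ∈ Finset.range L, h i ≤ 2 * ∑ x ∈ J, (2 * x + 1)) :
    ∃ c : ℕ → ℕ, ∀ i, i < L → ∃ r ∈ J, i + h i ≤ c r + r ∧ c r + h i ≤ i + r := by
  obtain ⟨b, B, h1, h2, _, h4⟩ := greedy (cuts L h) p _ J 0 rfl
  obtain ⟨c, hc⟩ := h1.cover hp (fun b hb i hi hib => not_mem_cuts hl hb hi hib)
  have hcard : ((cuts L h).filter (fun z => 0 < z)).card ≤ 2 * ∑ i ∈ Finset.range L, h i :=
    le_trans (Finset.card_filter_le _ _) (card_cuts hl)
  have hL : L ≤ b := by
    by_contra hcon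
    push Not at hcon
    set S := ∑ i ∈ Finset.range L, h i with hS
    rcases Nat.lt_or_ge B p with hBp | hBp
    · have : 2 * p * B ≤ 2 * p * p := Nat.mul_le_mul_left _ hBp.le
      nlinarith
    · obtain ⟨t, rfl⟩ := Nat.exists_eq_add_of_le hBp
      have e1 : p + t - p = t := by omega
      rw [e1] at h4
      have h5 : t * t ≤ 4 * S := by nlinarith
      have h6 : 16 * (p * t) ≤ 64 * (p * p) + t * t := by
        have : (0:ℤ) ≤ (8 * (p:ℤ) - t) ^ 2 := sq_nonneg _
        zify
        nlinarith
      have h7 : 2 * p * (p + t) = 2 * (p * p) + 2 * (p * t) := by ring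
      nlinarith
  refine ⟨c, ?_⟩
  intro i hi
  have := hl i hi
  exact hc i hi (by omega) (by omega)

/-- The sharp version, with all radii `< k`. -/
theorem line_sharp {L p k : ℕ} {h : ℕ → ℕ} (hp : ∀ i, i < L → h i ≤ p)
    (hl : ∀ i, i < L → h i ≤ i) (hr : ∀ i, i < L → i + h i < L)
    (hk : L + ∑ i ∈ Finset.range L, h i ≤ k ^ 2)
    (hpk : 40 * p ^ 2 ≤ k ∨ 2 * ∑ i ∈ Finset.range L, h i < k) :
    ∃ c : ℕ → ℕ, ∀ i, i < L → ∃ r, r < k ∧ i + h i ≤ c r + r ∧ c r + h i ≤ i + r := by
  set S := ∑ i ∈ Finset.range L, h i with hS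
  have hcardle := card_cuts hl
  rw [← hS] at hcardle
  have main : ∃ b, L ≤ b ∧ Reach (cuts L h) p (Finset.range k) 0 b := by
    rcases Nat.lt_or_ge (cuts L h).card k with hf | hf
    · have hhop : Hop (cuts L h) (Finset.range k) 0 := by
        refine grasshopper _ k _ _ (Finset.card_range k) ?_ ?_
        · have := Finset.card_filter_le (cuts L h) (fun z => 0 < z)
          omega
        · intro hmem
          have := mem_cuts_lt hr hmem
          rw [sum_range_radii] at this
          omega
      have h1 := hhop.reach p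
      rw [sum_range_radii] at h1
      exact ⟨_, by omega, h1⟩
    · have hpk' : 40 * p ^ 2 ≤ k := by
        rcases hpk with h' | h'
        · exact h'
        · omega
      obtain ⟨b, B, h1, h2, _, h4⟩ := greedy (cuts L h) p k (Finset.range k) 0
        (Finset.card_range k)
      refine ⟨b, ?_, h1⟩
      rw [sum_range_radii] at h2
      have hcard : ((cuts L h).filter (fun z => 0 < z)).card ≤ (cuts L h).card :=
        Finset.card_filter_le _ _
      set f := (cuts L h).card with hf'
      -- 4 p B ≤ f
      have hB : 4 * p * B ≤ f := by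
        by_contra hcon
        push Not at hcon
        rcases Nat.lt_or_ge B p with hBp | hBp
        · have : 4 * p * B ≤ 4 * p * p := Nat.mul_le_mul_left _ hBp.le
          nlinarith
        · obtain ⟨t, rfl⟩ := Nat.exists_eq_add_of_le hBp
          have e1 : p + t - p = t := by omega
          rw [e1] at h4
          have h5 : t * t ≤ 2 * f := by nlinarith
          have h6 : 40 * (p * p) ≤ f := by nlinarith
          -- x = 4 p t > 9 f / 10, x^2 ≤ 32 p^2 f ≤ 4/5 f^2
          have h7 : 9 * f < 10 * (4 * p * t) := by nlinarith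
          have h8 : (9 * f) * (9 * f) < (10 * (4 * p * t)) * (10 * (4 * p * t)) :=
            Nat.mul_lt_mul'' h7 h7
          have h9 : (p * p) * (t * t) ≤ (p * p) * (2 * f) := Nat.mul_le_mul_left _ h5
          have h10 : 40 * (p * p) * f ≤ f * f := Nat.mul_le_mul_right _ h6
          nlinarith
      have : 2 * p * B * 2 = 4 * p * B := by ring
      omega
  obtain ⟨b, hb, h1⟩ := main
  obtain ⟨c, hc⟩ := h1.cover hp (fun b hb i hi hib => not_mem_cuts hl hb hi hib)
  refine ⟨c, ?_⟩
  intro i hi
  have := hl i hi
  obtain ⟨r, hr1, hr2⟩ := hc i hi (by omega) (by omega)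
  exact ⟨r, Finset.mem_range.1 hr1, hr2⟩

end Pool.Agent.Helper64.Burn
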