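import Pool.Agent.Helper64.Burn.Process

set_option autoImplicit false

/-!
The line theorem for windows of height at most a small multiple of `k`.
-/

namespace Pool.Agent.Helper64.Burn

open Finset

/-- Positions whose window is high and close to `Q`. -/
def danger (L : ℕ) (h : ℕ → ℕ) (Q : ℕ) : Finset ℕ :=
  (Finset.range L).filter
    (fun i => 0 < h i ∧ ¬ (i + 22500 * h i ^ 2 < Q ∨ Q + 22500 * h i ^ 2 ≤ i))

theorem sum_danger {L p : ℕ} {h : ℕ → ℕ} (hp : ∀ i, i < L → h i ≤ p) :
    ∑ Q ∈ Finset.range L, (danger L h Q).card ≤ 45000 * p * ∑ i ∈ Finset.range L, h i := by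
  have h1 : ∑ Q ∈ Finset.range L, (danger L h Q).card =
      ∑ i ∈ Finset.range L, ((Finset.range L).filter (fun Q => i ∈ danger L h Q)).card := by
    have e1 : ∀ Q, (danger L h Q).card =
        ∑ i ∈ Finset.range L, if i ∈ danger L h Q then 1 else 0 := by
      intro Q
      rw [← Finset.card_filter]
      congr 1
      ext i
      simp only [danger, Finset.mem_filter]
      tauto
    have e2 : ∀ i, ((Finset.range L).filter (fun Q => i ∈ danger L h Q)).card =
        ∑ Q ∈ Finset.range L, if i ∈ danger L h Q then 1 else 0 := by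
      intro i
      rw [← Finset.card_filter]
    simp only [e1, e2]
    exact Finset.sum_comm
  rw [h1, Finset.mul_sum]
  refine Finset.sum_le_sum ?_
  intro i hi
  have hpi := hp i (Finset.mem_range.1 hi)
  have hcard : ((Finset.range L).filter (fun Q => i ∈ danger L h Q)).card ≤
      2 * (22500 * h i ^ 2) := by
    by_cases hi2 : i < 22500 * h i ^ 2
    · have h3 : (Finset.range L).filter (fun Q => i ∈ danger L h Q) ⊆
          Finset.range (i + 22500 * h i ^ 2 + 1) := by
        intro Q hQ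
        have hQ2 := (Finset.mem_filter.1 hQ).2
        simp only [danger, Finset.mem_filter, not_or, not_lt, not_le] at hQ2
        exact Finset.mem_range.2 (by omega)
      have h4 := Finset.card_le_card h3
      rw [Finset.card_range] at h4
      omega
    · have h3 : (Finset.range L).filter (fun Q => i ∈ danger L h Q) ⊆
          Finset.Ioc (i - 22500 * h i ^ 2) (i + 22500 * h i ^ 2) := by
        intro Q hQ
        have hQ2 := (Finset.mem_filter.1 hQ).2
        simp only [danger, Finset.mem_filter, not_or, not_lt, not_le] at hQ2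
        exact Finset.mem_Ioc.2 ⟨by omega, by omega⟩
      have h4 := Finset.card_le_card h3
      rw [Nat.card_Ioc] at h4
      omega
  refine le_trans hcard ?_
  have : h i ^ 2 ≤ p * h i := by
    rw [sq]; exact Nat.mul_le_mul_right _ hpi
  nlinarith

/-- A quiet place exists after the removal of few positions. -/
theorem exists_quiet {L p : ℕ} {h : ℕ → ℕ} (hL : 0 < L) (hp : ∀ i, i < L → h i ≤ p) :
    ∃ Q, Q < L ∧ (danger L h Q).card * L ≤ 45000 * p * ∑ i ∈ Finset.range L, h i := by
  by_contra hcon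
  push Not at hcon
  have h1 := sum_danger hp
  set X := 45000 * p * ∑ i ∈ Finset.range L, h i with hX
  have h2 : ∑ Q ∈ Finset.range L, X < ∑ Q ∈ Finset.range L, (danger L h Q).card * L := by
    refine Finset.sum_lt_sum_of_nonempty ⟨0, Finset.mem_range.2 hL⟩ ?_
    intro Q hQ
    exact hcon Q (Finset.mem_range.1 hQ)
  rw [Finset.sum_const, Finset.card_range, smul_eq_mul, ← Finset.sum_mul] at h2
  have h3 := Nat.mul_le_mul_right L h1
  rw [Nat.mul_comm X L] at h3
  omega

/-- The line theorem with heights up to `k / 360000`. -/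
theorem line_linear {L p k : ℕ} {h : ℕ → ℕ} (hp : ∀ i, i < L → h i ≤ p)
    (hl : ∀ i, i < L → h i ≤ i) (hr : ∀ i, i < L → i + h i < L)
    (hk : L + ∑ i ∈ Finset.range L, h i ≤ k ^ 2) (hpk : 360000 * p ≤ k) :
    ∃ c : ℕ → ℤ, ∀ i : ℕ, i < L → ∃ r, r < k ∧ (i : ℤ) + h i ≤ c r + r ∧ c r + h i ≤ i + r := by
  rcases Nat.eq_zero_or_pos L with hL | hL
  · subst hL
    exact ⟨fun _ => 0, fun i hi => absurd hi (by omega)⟩
  have hk0 : 0 < k := by
    rcases Nat.eq_zero_or_pos k with h0 | h0
    · subst h0; omega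
    · exact h0
  set S := ∑ i ∈ Finset.range L, h i with hS
  rcases Nat.lt_or_ge (2 * L) (k ^ 2) with hsmall | hbig
  · -- short line
    have hcov : Cov L h (Finset.range k) 0 L := by
      refine Cov.crude (η := p) k (Finset.range k) 0 L (Finset.card_range k)
        (fun i hi _ _ => hp i hi) ?_
      have h1 := sum_sub_ge p k (Finset.range k) (Finset.card_range k)
      refine le_trans ?_ h1
      have h2 : 3 * k ≤ 4 * (k - p) := by omega
      have h3 : (3 * k) ^ 2 ≤ (4 * (k - p)) ^ 2 := Nat.pow_le_pow_left h2 2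
      have h4 : (3 * k) ^ 2 = 9 * k ^ 2 := by ring
      have h5 : (4 * (k - p)) ^ 2 = 16 * (k - p) ^ 2 := by ring
      omega
    obtain ⟨c, hc⟩ := hcov
    refine ⟨c, ?_⟩
    intro i hi
    have h1 := hl i hi
    obtain ⟨r, hr1, hr2⟩ := hc i hi (by omega) (hr i hi)
    exact ⟨r, Finset.mem_range.1 hr1, hr2⟩
  obtain ⟨Q, hQ, hQe⟩ := exists_quiet hL hp
  rw [← hS] at hQe
  set e := (danger L h Q).card with he
  -- 4 e k ≤ S
  have h4ek : 4 * e * k ≤ S := by
    have h1 : e * k ^ 2 ≤ 90000 * p * S := by nlinarith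
    have h2 : 4 * (90000 * p * S) ≤ k * S := by
      have : 4 * (90000 * p * S) = (360000 * p) * S := by ring
      rw [this]
      exact Nat.mul_le_mul_right _ hpk
    have h3 : (4 * e * k) * k ≤ S * k := by nlinarith
    exact Nat.le_of_mul_le_mul_right h3 hk0
  have hSk : S ≤ k ^ 2 := by omega
  have hek : 4 * e ≤ k := by
    have : (4 * e) * k ≤ k * k := by nlinarith
    exact Nat.le_of_mul_le_mul_right this hk0
  let h' : ℕ → ℕ := fun i => if i ∈ danger L h Q then 0 else h i
  have hh' : ∀ i, h' i ≤ h i := by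
    intro i
    simp only [h']
    split_ifs <;> omega
  have D : Data L h' Q (Finset.range (k - e)) 0 L := by
    refine ⟨?_, ?_, Nat.zero_le _, hQ.le, le_refl _, ?_, HC.range _, ?_⟩
    · intro i hi
      exact le_trans (hh' i) (hl i hi)
    · intro i hi
      have := hh' i
      have := hr i hi
      omega
    · intro i hi hpos
      by_cases hd : i ∈ danger L h Q
      · simp only [h', if_pos hd] at hpos
        omega
      · have e1 : h' i = h i := by simp only [h', if_neg hd]
        rw [e1] at hpos ⊢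
        by_contra hcon
        exact hd (Finset.mem_filter.2 ⟨Finset.mem_range.2 hi, hpos, hcon⟩)
    · have h1 : (inner L h' 0 L).card ≤ 2 * S := by
        refine le_trans (Finset.card_filter_le _ _) (le_trans (card_cuts ?_) ?_)
        · intro i hi
          exact le_trans (hh' i) (hl i hi)
        · exact Nat.mul_le_mul_left _ (Finset.sum_le_sum fun i _ => hh' i)
      rw [sum_range_radii]
      obtain ⟨d, hd⟩ : ∃ d, k = e + d := Nat.exists_eq_add_of_le (by omega)
      have e1 : k - e = d := by omega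
      rw [e1]
      have h2 : k ^ 2 = d ^ 2 + e * k + e * d := by rw [hd]; ring
      have h3 : e * d ≤ e * k := Nat.mul_le_mul_left _ (by omega)
      have h4 : 4 * e * k = 4 * (e * k) := by ring
      omega
  obtain ⟨c, hc⟩ := process (k - e) L h' Q (Finset.range (k - e)) 0 L (Finset.card_range _) D
  let f : {x // x ∈ danger L h Q} ≃ Fin e := (danger L h Q).equivFin
  refine ⟨fun r => if hr : r - (k - e) < e ∧ k - e ≤ r then
      (((f.symm ⟨r - (k - e), hr.1⟩ : {x // x ∈ danger L h Q}) : ℕ) : ℤ) else c r, ?_⟩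
  intro i hi
  by_cases hd : i ∈ danger L h Q
  · refine ⟨k - e + (f ⟨i, hd⟩ : ℕ), ?_, ?_⟩
    · have := (f ⟨i, hd⟩).2
      omega
    · have h1 : k - e + (f ⟨i, hd⟩ : ℕ) - (k - e) = (f ⟨i, hd⟩ : ℕ) := by omega
      have h2 : k - e + (f ⟨i, hd⟩ : ℕ) - (k - e) < e ∧ k - e ≤ k - e + (f ⟨i, hd⟩ : ℕ) := by
        rw [h1]
        exact ⟨(f ⟨i, hd⟩).2, by omega⟩
      simp only [dif_pos h2]
      have h3 : (⟨k - e + (f ⟨i, hd⟩ : ℕ) - (k - e), h2.1⟩ : Fin e) = f ⟨i, hd⟩ := by
        apply Fin.ext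
        exact h1
      rw [h3, Equiv.symm_apply_apply]
      simp only
      have h4 := hp i hi
      push_cast
      constructor <;> omega
  · have e1 : h' i = h i := by simp only [h', if_neg hd]
    have h1 := hl i hi
    have h2 := hr i hi
    obtain ⟨r, hr1, hr2⟩ := hc i hi (by rw [e1]; omega) (by rw [e1]; exact h2)
    rw [Finset.mem_range] at hr1
    rw [e1] at hr2
    refine ⟨r, by omega, ?_⟩
    have h3 : ¬ (r - (k - e) < e ∧ k - e ≤ r) := by omega
    simp only [dif_neg h3]
    exact hr2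

/-- All cases of the line theorem together. -/
theorem line_main {L p k : ℕ} {h : ℕ → ℕ} (hp : ∀ i, i < L → h i ≤ p)
    (hl : ∀ i, i < L → h i ≤ i) (hr : ∀ i, i < L → i + h i < L)
    (hk : L + ∑ i ∈ Finset.range L, h i ≤ k ^ 2)
    (hpk : 40 * p ^ 2 ≤ k ∨ 360000 * p ≤ k ∨ 2 * ∑ i ∈ Finset.range L, h i < k) :
    ∃ c : ℕ → ℤ, ∀ i : ℕ, i < L → ∃ r, r < k ∧ (i : ℤ) + h i ≤ c r + r ∧ c r + h i ≤ i + r := by
  have aux : (40 * p ^ 2 ≤ k ∨ 2 * ∑ i ∈ Finset.range L, h i < k) →
      ∃ c : ℕ → ℤ, ∀ i : ℕ, i < L →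
        ∃ r, r < k ∧ (i : ℤ) + h i ≤ c r + r ∧ c r + h i ≤ i + r := by
    intro hpk'
    obtain ⟨c, hc⟩ := line_sharp hp hl hr hk hpk'
    refine ⟨fun r => (c r : ℤ), ?_⟩
    intro i hi
    obtain ⟨r, hr1, hr2, hr3⟩ := hc i hi
    refine ⟨r, hr1, ?_, ?_⟩
    · show (i : ℤ) + h i ≤ (c r : ℤ) + r
      omega
    · show (c r : ℤ) + h i ≤ i + r
      omega
  rcases hpk with h1 | h1 | h1
  · exact aux (Or.inl h1)
  · exact line_linear hp hl hr hk h1
  · exact aux (Or.inr h1)

end Pool.Agent.Helper64.Burn
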