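import Mathlib

set_option autoImplicit false

/-!
Sets of radii which are almost initial segments.
-/

namespace Pool.Agent.Helper64.Burn

open Finset

/-- Largest element. -/
def top (U : Finset ℕ) : ℕ := U.sup id

/-- Number of elements above `y`. -/
def rk (U : Finset ℕ) (y : ℕ) : ℕ := (U.filter (fun u => y < u)).card

/-- Missing numbers below the top with at least `j` elements above. -/
def holes (U : Finset ℕ) (j : ℕ) : Finset ℕ :=
  (Finset.range (top U)).filter (fun y => y ∉ U ∧ j ≤ rk U y)

/-- Few holes. -/
def HC (U : Finset ℕ) : Prop :=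
  ∀ j, (holes U j).card = 0 ∨ 2 * (holes U j).card + 4 * j ≤ U.card

theorem top_mem {U : Finset ℕ} (hU : U.Nonempty) : top U ∈ U := by
  obtain ⟨x, hx, hx'⟩ := Finset.exists_mem_eq_sup U hU id
  rw [top, hx']
  exact hx

theorem le_top {U : Finset ℕ} {x : ℕ} (hx : x ∈ U) : x ≤ top U := Finset.le_sup (f := id) hx

theorem top_mono {U U' : Finset ℕ} (h : U ⊆ U') : top U ≤ top U' := Finset.sup_mono h

theorem rk_le {U : Finset ℕ} (y : ℕ) : rk U y ≤ U.card := Finset.card_filter_le _ _

theorem rk_erase_top {U : Finset ℕ} (hU : U.Nonempty) {y : ℕ} (hy : y < top U) :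
    rk (U.erase (top U)) y + 1 = rk U y := by
  have h : U.filter (fun u => y < u) =
      insert (top U) ((U.erase (top U)).filter (fun u => y < u)) := by
    ext u
    simp only [Finset.mem_filter, Finset.mem_insert, Finset.mem_erase]
    constructor
    · rintro ⟨h1, h2⟩
      by_cases h3 : u = top U
      · exact Or.inl h3
      · exact Or.inr ⟨⟨h3, h1⟩, h2⟩
    · rintro (rfl | ⟨⟨_, h1⟩, h2⟩)
      · exact ⟨top_mem hU, hy⟩
      · exact ⟨h1, h2⟩
  rw [rk, rk, h, Finset.card_insert_of_notMem]
  simp

theorem rk_mono {U U' : Finset ℕ} (h : U ⊆ U') (y : ℕ) : rk U y ≤ rk U' y :=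
  Finset.card_le_card (Finset.filter_subset_filter _ h)

theorem card_le_top {U : Finset ℕ} (_hU : U.Nonempty) : U.card ≤ top U + 1 := by
  have : U ⊆ Finset.range (top U + 1) := by
    intro x hx
    have := le_top hx
    exact Finset.mem_range.2 (by omega)
  have := Finset.card_le_card this
  rwa [Finset.card_range] at this

theorem HC.erase_top {U : Finset ℕ} (h : HC U) (hU : U.Nonempty) : HC (U.erase (top U)) := by
  intro j
  have hsub : holes (U.erase (top U)) j ⊆ holes U (j + 1) := by
    intro y hy
    simp only [holes, Finset.mem_filter, Finset.mem_range] at hy ⊢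
    obtain ⟨h1, h2, h3⟩ := hy
    have h4 : top (U.erase (top U)) ≤ top U := top_mono (Finset.erase_subset _ _)
    have h5 : y < top U := by omega
    refine ⟨h5, ?_, ?_⟩
    · intro hyU
      exact h2 (Finset.mem_erase.2 ⟨by omega, hyU⟩)
    · have := rk_erase_top hU h5
      omega
  have hc := Finset.card_le_card hsub
  have hcard : (U.erase (top U)).card = U.card - 1 := Finset.card_erase_of_mem (top_mem hU)
  rcases h (j + 1) with h1 | h1
  · left; omega
  · right; omega

theorem HC.erase_pair {U : Finset ℕ} (h : HC U) {x : ℕ} (hx : x ∈ U) (hxt : x ≠ top U)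
    (hr : 4 * rk U x ≤ U.card) : HC ((U.erase x).erase (top U)) := by
  intro j
  have hU : U.Nonempty := ⟨x, hx⟩
  have htm : top U ∈ U.erase x := Finset.mem_erase.2 ⟨Ne.symm hxt, top_mem hU⟩
  have hxlt : x < top U := by
    have := le_top hx
    omega
  have hswap : (U.erase x).erase (top U) = (U.erase (top U)).erase x := by
    rw [Finset.erase_right_comm]
  have htople : top ((U.erase x).erase (top U)) ≤ top U :=
    top_mono ((Finset.erase_subset _ _).trans (Finset.erase_subset _ _))
  have hrk : ∀ y, y < top U → rk ((U.erase x).erase (top U)) y + 1 ≤ rk U y := by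
    intro y hy
    have h1 := rk_erase_top hU hy
    have h2 : rk ((U.erase x).erase (top U)) y ≤ rk (U.erase (top U)) y := by
      rw [hswap]
      exact rk_mono (Finset.erase_subset _ _) y
    omega
  have hsub : (holes ((U.erase x).erase (top U)) j).erase x ⊆ holes U (j + 1) := by
    intro y hy
    rw [Finset.mem_erase] at hy
    obtain ⟨hyx, hy⟩ := hy
    simp only [holes, Finset.mem_filter, Finset.mem_range] at hy ⊢
    obtain ⟨h1, h2, h3⟩ := hy
    have h5 : y < top U := by omega
    refine ⟨h5, ?_, ?_⟩
    · intro hyU
      exact h2 (Finset.mem_erase.2 ⟨by omega, Finset.mem_erase.2 ⟨hyx, hyU⟩⟩)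
    · have := hrk y h5
      omega
  have hc := Finset.card_le_card hsub
  have hcard : ((U.erase x).erase (top U)).card = U.card - 2 := by
    rw [Finset.card_erase_of_mem htm, Finset.card_erase_of_mem hx]; omega
  by_cases hxh : x ∈ holes ((U.erase x).erase (top U)) j
  · rw [Finset.card_erase_of_mem hxh] at hc
    have h3 := (Finset.mem_filter.1 hxh).2.2
    have h4 := hrk x hxlt
    right
    rcases h (j + 1) with h1 | h1
    · omega
    · omega
  · rw [Finset.erase_eq_of_notMem hxh] at hc
    rcases h (j + 1) with h1 | h1
    · left; omega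
    · right; omega

theorem HC.top_le {U : Finset ℕ} (h : HC U) : 2 * (top U + 1) ≤ 3 * U.card + 2 ∧
    (U.Nonempty → 2 * (top U + 1) ≤ 3 * U.card) := by
  have hsub : Finset.range (top U) ⊆ U ∪ holes U 0 := by
    intro y hy
    rw [Finset.mem_union]
    by_cases hyU : y ∈ U
    · exact Or.inl hyU
    · right
      simp only [holes, Finset.mem_filter]
      exact ⟨hy, hyU, Nat.zero_le _⟩
  have hc := (Finset.card_le_card hsub).trans (Finset.card_union_le _ _)
  rw [Finset.card_range] at hc
  have h0 := h 0
  constructor
  · rcases h0 with h0 | h0 <;> omega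
  · intro hU
    have hsub2 : Finset.range (top U) ⊆ (U.erase (top U)) ∪ holes U 0 := by
      intro y hy
      have hy' := Finset.mem_range.1 hy
      rcases Finset.mem_union.1 (hsub hy) with h1 | h1
      · exact Finset.mem_union_left _ (Finset.mem_erase.2 ⟨by omega, h1⟩)
      · exact Finset.mem_union_right _ h1
    have hc2 := (Finset.card_le_card hsub2).trans (Finset.card_union_le _ _)
    rw [Finset.card_range, Finset.card_erase_of_mem (top_mem hU)] at hc2
    have hpos := Finset.card_pos.2 hU
    rcases h0 with h0 | h0 <;> omega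

theorem HC.range (k : ℕ) : HC (Finset.range k) := by
  intro j
  left
  rw [Finset.card_eq_zero, holes, Finset.filter_eq_empty_iff]
  intro y hy
  rintro ⟨h1, _⟩
  apply h1
  rw [Finset.mem_range] at hy ⊢
  rcases Nat.eq_zero_or_pos k with rfl | hk
  · simp [top] at hy
  · have : top (Finset.range k) ∈ Finset.range k := top_mem ⟨0, Finset.mem_range.2 hk⟩
    have := Finset.mem_range.1 this
    omega

theorem sum_le_top {U : Finset ℕ} : ∑ x ∈ U, (2 * x + 1) ≤ (top U + 1) ^ 2 := by
  have h1 : U ⊆ Finset.range (top U + 1) := by
    intro x hx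
    have := le_top hx
    exact Finset.mem_range.2 (by omega)
  have h2 := Finset.sum_le_sum_of_subset (f := fun x => 2 * x + 1) h1
  have h3 : ∑ x ∈ Finset.range (top U + 1), (2 * x + 1) = (top U + 1) ^ 2 := by
    generalize top U + 1 = k
    induction k with
    | zero => simp
    | succ k ih => rw [Finset.sum_range_succ, ih]; ring
  omega

theorem pool_card : ∀ (q : ℕ) (U : Finset ℕ), q + 1 ≤ U.card →
    q + 1 ≤ (U.filter (fun x => rk U x ≤ q)).card := by
  intro q
  induction q with
  | zero =>
    intro U hU
    have hne : U.Nonempty := Finset.card_pos.1 (by omega)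
    have : ({top U} : Finset ℕ) ⊆ U.filter (fun x => rk U x ≤ 0) := by
      intro x hx
      rw [Finset.mem_singleton] at hx
      subst hx
      refine Finset.mem_filter.2 ⟨top_mem hne, ?_⟩
      rw [rk, Nat.le_zero, Finset.card_eq_zero, Finset.filter_eq_empty_iff]
      intro u hu
      have := le_top hu
      omega
    have := Finset.card_le_card this
    simpa using this
  | succ q ih =>
    intro U hU
    have hne : U.Nonempty := Finset.card_pos.1 (by omega)
    have hcard : (U.erase (top U)).card = U.card - 1 := Finset.card_erase_of_mem (top_mem hne)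
    have h1 := ih (U.erase (top U)) (by omega)
    have h2 : insert (top U) ((U.erase (top U)).filter (fun x => rk (U.erase (top U)) x ≤ q)) ⊆
        U.filter (fun x => rk U x ≤ q + 1) := by
      intro x hx
      rw [Finset.mem_insert] at hx
      rcases hx with rfl | hx
      · refine Finset.mem_filter.2 ⟨top_mem hne, ?_⟩
        have : rk U (top U) = 0 := by
          rw [rk, Finset.card_eq_zero, Finset.filter_eq_empty_iff]
          intro u hu
          have := le_top hu
          omega
        omega
      · obtain ⟨hx1, hx2⟩ := Finset.mem_filter.1 hx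
        obtain ⟨hx3, hx4⟩ := Finset.mem_erase.1 hx1
        refine Finset.mem_filter.2 ⟨hx4, ?_⟩
        have := le_top hx4
        have := rk_erase_top hne (y := x) (by omega)
        omega
    have h3 := Finset.card_le_card h2
    rw [Finset.card_insert_of_notMem] at h3
    · omega
    · intro hmem
      have := (Finset.mem_filter.1 hmem).1
      exact Finset.notMem_erase _ _ this

theorem sum_sub_ge (η : ℕ) : ∀ (n : ℕ) (U : Finset ℕ), U.card = n →
    (n - η) ^ 2 ≤ ∑ x ∈ U, (2 * x + 1 - 2 * η) := by
  intro n
  induction n with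
  | zero => intro U _; simp
  | succ n ih =>
    intro U hU
    have hne : U.Nonempty := Finset.card_pos.1 (by omega)
    have hcard : (U.erase (top U)).card = n := by
      rw [Finset.card_erase_of_mem (top_mem hne)]; omega
    have h1 := ih _ hcard
    have h2 := Finset.sum_erase_add U (fun x => 2 * x + 1 - 2 * η) (top_mem hne)
    have h3 := card_le_top hne
    rw [← h2]
    rcases Nat.lt_or_ge η (n + 1) with h4 | h4
    · obtain ⟨d, hd⟩ : ∃ d, n + 1 = η + 1 + d := Nat.exists_eq_add_of_le h4
      have e1 : n + 1 - η = d + 1 := by omega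
      have e2 : n - η = d := by omega
      rw [e1]
      rw [e2] at h1
      have h5 : 2 * d + 1 ≤ 2 * top U + 1 - 2 * η := by omega
      have h6 : (d + 1) ^ 2 = d ^ 2 + (2 * d + 1) := by ring
      omega
    · have : n + 1 - η = 0 := by omega
      rw [this]
      simp

end Pool.Agent.Helper64.Burn
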