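import Pool.Agent.Helper64.Burn.Line
import Pool.Agent.Helper64.Burn.Radii

set_option autoImplicit false

/-!
Two sided covering of a line with windows, towards a quiet meeting point `Q`.
-/

namespace Pool.Agent.Helper64.Burn

open Finset

/-- All windows inside `[a, a')` can be covered by intervals with radii in `U`. -/
def Cov (L : ℕ) (h : ℕ → ℕ) (U : Finset ℕ) (a a' : ℕ) : Prop :=
  ∃ c : ℕ → ℤ, ∀ i : ℕ, i < L → a + h i ≤ i → i + h i < a' →
    ∃ r ∈ U, (i : ℤ) + h i ≤ c r + r ∧ c r + h i ≤ i + r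

theorem Cov.mono {L : ℕ} {h : ℕ → ℕ} {U U' : Finset ℕ} {a a' : ℕ} (hc : Cov L h U a a')
    (hU : U ⊆ U') : Cov L h U' a a' := by
  obtain ⟨c, hc⟩ := hc
  refine ⟨c, ?_⟩
  intro i h1 h2 h3
  obtain ⟨r, hr, hr'⟩ := hc i h1 h2 h3
  exact ⟨r, hU hr, hr'⟩

theorem Cov.good {L : ℕ} {h : ℕ → ℕ} (hl : ∀ i, i < L → h i ≤ i) {U : Finset ℕ} {a a' r : ℕ}
    (hr : r ∈ U) (hZ : a + (2 * r + 1) ∉ cuts L h)
    (hc : Cov L h (U.erase r) (a + (2 * r + 1)) a') : Cov L h U a a' := by
  obtain ⟨c, hc⟩ := hc
  refine ⟨fun x => if x = r then (a + r : ℕ) else c x, ?_⟩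
  intro i hi h1 h2
  rcases Nat.lt_or_ge i (a + (2 * r + 1) + h i) with h3 | h3
  · have h4 := not_mem_cuts hl hZ hi h3
    refine ⟨r, hr, ?_⟩
    simp only [if_true]
    push_cast
    omega
  · obtain ⟨x, hx, hx1, hx2⟩ := hc i hi h3 h2
    have hxr : x ≠ r := (Finset.mem_erase.1 hx).1
    refine ⟨x, Finset.mem_of_mem_erase hx, ?_⟩
    simp only [if_neg hxr]
    exact ⟨hx1, hx2⟩

theorem Cov.bad {L : ℕ} {h : ℕ → ℕ} {U : Finset ℕ} {a a' r η : ℕ}
    (hr : r ∈ U) (hη : ∀ i, i < L → a + h i ≤ i → i + h i < a' → h i ≤ η)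
    (hc : Cov L h (U.erase r) (a + (2 * r + 1) - 2 * η) a') : Cov L h U a a' := by
  obtain ⟨c, hc⟩ := hc
  refine ⟨fun x => if x = r then (a + r : ℕ) else c x, ?_⟩
  intro i hi h1 h2
  have hpi := hη i hi h1 h2
  rcases Nat.lt_or_ge i (a + (2 * r + 1) - 2 * η + h i) with h3 | h3
  · refine ⟨r, hr, ?_⟩
    simp only [if_true]
    push_cast
    omega
  · obtain ⟨x, hx, hx1, hx2⟩ := hc i hi h3 h2
    have hxr : x ≠ r := (Finset.mem_erase.1 hx).1
    refine ⟨x, Finset.mem_of_mem_erase hx, ?_⟩
    simp only [if_neg hxr]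
    exact ⟨hx1, hx2⟩

theorem Cov.crude {L : ℕ} {h : ℕ → ℕ} {η : ℕ} : ∀ (n : ℕ) (U : Finset ℕ) (a a' : ℕ), U.card = n →
    (∀ i, i < L → a + h i ≤ i → i + h i < a' → h i ≤ η) →
    a' - a ≤ ∑ x ∈ U, (2 * x + 1 - 2 * η) → Cov L h U a a' := by
  intro n
  induction n with
  | zero =>
    intro U a a' hU _ hs
    rw [Finset.card_eq_zero] at hU
    subst hU
    simp only [Finset.sum_empty, Nat.le_zero] at hs
    refine ⟨fun _ => 0, ?_⟩
    intro i _ h1 h2
    omega
  | succ n ih =>
    intro U a a' hU hη hs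
    have hne : U.Nonempty := Finset.card_pos.1 (by omega)
    obtain ⟨r, hr⟩ := hne
    have hcard : (U.erase r).card = n := by rw [Finset.card_erase_of_mem hr]; omega
    have hsum : ∑ x ∈ U.erase r, (2 * x + 1 - 2 * η) + (2 * r + 1 - 2 * η) =
        ∑ x ∈ U, (2 * x + 1 - 2 * η) := Finset.sum_erase_add U _ hr
    rcases Nat.lt_or_ge (2 * r + 1) (2 * η) with h1 | h1
    · refine (ih (U.erase r) a a' hcard hη ?_).mono (Finset.erase_subset _ _)
      omega
    · refine Cov.bad hr hη (ih (U.erase r) _ a' hcard ?_ ?_)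
      · intro i hi h2 h3
        exact hη i hi (by omega) h3
      · omega

/-- Reflection. -/
theorem Cov.reflect {L : ℕ} {h : ℕ → ℕ} {U : Finset ℕ} {a a' : ℕ} (ha : a' ≤ L)
    (hc : Cov L (fun i => h (L - 1 - i)) U (L - a') (L - a)) : Cov L h U a a' := by
  obtain ⟨c, hc⟩ := hc
  refine ⟨fun x => (L : ℤ) - 1 - c x, ?_⟩
  intro i hi h1 h2
  have e : L - 1 - (L - 1 - i) = i := by omega
  obtain ⟨r, hr, hr1, hr2⟩ := hc (L - 1 - i) (by omega) (by
    show L - a' + h (L - 1 - (L - 1 - i)) ≤ L - 1 - i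
    rw [e]; omega) (by
    show L - 1 - i + h (L - 1 - (L - 1 - i)) < L - a
    rw [e]; omega)
  refine ⟨r, hr, ?_⟩
  simp only [e] at hr1 hr2
  have e2 : ((L - 1 - i : ℕ) : ℤ) = (L : ℤ) - 1 - i := by omega
  rw [e2] at hr1 hr2
  constructor <;> linarith

/-- No high window close to `Q`. -/
def Quiet (L : ℕ) (h : ℕ → ℕ) (Q : ℕ) : Prop :=
  ∀ i, i < L → 0 < h i → i + 22500 * h i ^ 2 < Q ∨ Q + 22500 * h i ^ 2 ≤ i

/-- The cuts strictly between `a` and `a'`. -/
def inner (L : ℕ) (h : ℕ → ℕ) (a a' : ℕ) : Finset ℕ :=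
  (cuts L h).filter (fun z => a < z ∧ z < a')

/-- The data of a position of the two sided process. -/
structure Data (L : ℕ) (h : ℕ → ℕ) (Q : ℕ) (U : Finset ℕ) (a a' : ℕ) : Prop where
  hl : ∀ i, i < L → h i ≤ i
  hr : ∀ i, i < L → i + h i < L
  aQ : a ≤ Q
  Qa : Q ≤ a'
  aL : a' ≤ L
  quiet : Quiet L h Q
  hc : HC U
  budget : 4 * (a' - a) + (inner L h a a').card ≤ 4 * ∑ x ∈ U, (2 * x + 1)

theorem Data.reflect {L : ℕ} {h : ℕ → ℕ} {Q : ℕ} {U : Finset ℕ} {a a' : ℕ}
    (D : Data L h Q U a a') :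
    Data L (fun i => h (L - 1 - i)) (L - Q) U (L - a') (L - a) where
  hl := by
    intro i hi
    have := D.hr (L - 1 - i) (by omega)
    show h (L - 1 - i) ≤ i
    omega
  hr := by
    intro i hi
    have := D.hl (L - 1 - i) (by omega)
    show i + h (L - 1 - i) < L
    omega
  aQ := by have := D.Qa; omega
  Qa := by have := D.aQ; omega
  aL := by omega
  quiet := by
    intro i hi hpos
    have h1 := D.quiet (L - 1 - i) (by omega) hpos
    have h2 := D.Qa
    have h3 := D.aL
    show i + 22500 * h (L - 1 - i) ^ 2 < L - Q ∨ L - Q + 22500 * h (L - 1 - i) ^ 2 ≤ i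
    omega
  hc := D.hc
  budget := by
    have h1 := D.budget
    have h2 := D.aQ
    have h3 := D.Qa
    have h4 := D.aL
    have hcard : (inner L (fun i => h (L - 1 - i)) (L - a') (L - a)).card ≤
        (inner L h a a').card := by
      refine Finset.card_le_card_of_injOn (fun z => L - z) ?_ ?_
      · intro z hz
        rw [Finset.mem_coe] at hz ⊢
        simp only [inner, Finset.mem_filter, cuts, Finset.mem_biUnion, Finset.mem_range,
          Finset.mem_Ioc] at hz ⊢
        obtain ⟨⟨i, hi, hi1, hi2⟩, hz1, hz2⟩ := hz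
        have h5 := D.hr (L - 1 - i) (by omega)
        have h6 := D.hl (L - 1 - i) (by omega)
        exact ⟨⟨L - 1 - i, by omega, by omega, by omega⟩, by omega, by omega⟩
      · intro z hz z' hz' hzz
        rw [Finset.mem_coe] at hz hz'
        simp only [inner, Finset.mem_filter] at hz hz'
        simp only at hzz
        omega
    have e : L - a - (L - a') = a' - a := by omega
    rw [e]
    omega

theorem Data.active {L : ℕ} {h : ℕ → ℕ} {Q : ℕ} {U : Finset ℕ} {a a' : ℕ}
    (D : Data L h Q U a a') : ∀ i, i < L → a + h i ≤ i → i + h i < a' →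
      22500 * h i ^ 2 ≤ a' - a := by
  intro i hi h1 h2
  rcases Nat.eq_zero_or_pos (h i) with h0 | h0
  · rw [h0]; simp
  have h3 := D.aQ
  have h4 := D.Qa
  rcases D.quiet i hi h0 with h5 | h5 <;> omega

theorem Data.gap_le {L : ℕ} {h : ℕ → ℕ} {Q : ℕ} {U : Finset ℕ} {a a' : ℕ}
    (D : Data L h Q U a a') : 4 * (a' - a) ≤ 9 * U.card ^ 2 := by
  have h1 := D.budget
  have h2 := sum_le_top (U := U)
  rcases U.eq_empty_or_nonempty with h0 | h0
  · subst h0
    simp only [Finset.sum_empty] at h1
    omega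
  · have h3 := D.hc.top_le.2 h0
    have h4 : (2 * (top U + 1)) ^ 2 ≤ (3 * U.card) ^ 2 := Nat.pow_le_pow_left h3 2
    nlinarith

theorem Data.height_le {L : ℕ} {h : ℕ → ℕ} {Q : ℕ} {U : Finset ℕ} {a a' : ℕ}
    (D : Data L h Q U a a') : ∀ i, i < L → a + h i ≤ i → i + h i < a' →
      h i ≤ U.card / 100 := by
  intro i hi h1 h2
  have h3 := D.active i hi h1 h2
  have h4 := D.gap_le
  rw [Nat.le_div_iff_mul_le (by norm_num)]
  have h5 : (h i * 100) ^ 2 ≤ U.card ^ 2 := by nlinarith
  exact (Nat.pow_le_pow_iff_left (by norm_num)).1 h5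

theorem top_three {U : Finset ℕ} (hU : 3 ≤ U.card) :
    U.card ≤ top (U.erase (top U)) + 2 ∧
    U.card ≤ top ((U.erase (top U)).erase (top (U.erase (top U)))) + 3 := by
  have hne : U.Nonempty := Finset.card_pos.1 (by omega)
  have hc1 : (U.erase (top U)).card = U.card - 1 := Finset.card_erase_of_mem (top_mem hne)
  have hne1 : (U.erase (top U)).Nonempty := Finset.card_pos.1 (by omega)
  have hc2 : ((U.erase (top U)).erase (top (U.erase (top U)))).card = U.card - 2 := by
    rw [Finset.card_erase_of_mem (top_mem hne1), hc1]; omega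
  have hne2 : ((U.erase (top U)).erase (top (U.erase (top U)))).Nonempty :=
    Finset.card_pos.1 (by omega)
  have h1 := card_le_top hne1
  have h2 := card_le_top hne2
  omega

/-- One block of the process on the left side. -/
theorem left_block {L : ℕ} {h : ℕ → ℕ} {Q : ℕ} {U : Finset ℕ} {a a' : ℕ}
    (D : Data L h Q U a a') (hfar : 9 * U.card ≤ Q - a) (hlong : 18 * U.card ≤ a' - a)
    (IH : ∀ (U' : Finset ℕ) (b : ℕ), U'.card < U.card → Data L h Q U' b a' → Cov L h U' b a') :
    Cov L h U a a' := by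
  classical
  have hgap := D.gap_le
  have haQ := D.aQ
  have hQa := D.Qa
  rcases Nat.eq_zero_or_pos U.card with h0 | h0
  · -- no radii: nothing to cover
    have : a' - a = 0 := by
      rw [h0] at hgap
      omega
    refine ⟨fun _ => 0, ?_⟩
    intro i _ h1 h2
    omega
  have hne : U.Nonempty := Finset.card_pos.1 h0
  have htop := D.hc.top_le.2 hne
  have hm8 : 8 ≤ U.card := by
    have h2 : 4 * (18 * U.card) ≤ 9 * U.card ^ 2 := by omega
    have h3 : U.card ^ 2 = U.card * U.card := sq _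
    have : 8 * U.card ≤ U.card * U.card := by nlinarith
    exact Nat.le_of_mul_le_mul_right this h0
  have hheight := D.height_le
  set m := U.card with hm
  set K := top U with hK
  have hKU : K ∈ U := top_mem hne
  by_cases hloc : ((cuts L h).filter (fun z => a < z ∧ z ≤ a + (4 * K + 2))).card < m / 4
  · -- a good pair
    have hpool := pool_card (m / 4) U (by omega)
    have hex : ∃ x ∈ (U.filter (fun x => rk U x ≤ m / 4)).erase K,
        a + (2 * x + 1) ∉ cuts L h ∧ a + (2 * x + 1) + (2 * K + 1) ∉ cuts L h := by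
      by_contra hcon
      push Not at hcon
      have hg : ∀ x ∈ (U.filter (fun x => rk U x ≤ m / 4)).erase K,
          ∃ z ∈ (cuts L h).filter (fun z => a < z ∧ z ≤ a + (4 * K + 2)),
            z = a + (2 * x + 1) ∨ z = a + (2 * x + 1) + (2 * K + 1) := by
        intro x hx
        have hx1 := Finset.mem_erase.1 hx
        have hx2 := le_top (Finset.mem_filter.1 hx1.2).1
        by_cases hxz : a + (2 * x + 1) ∈ cuts L h
        · refine ⟨_, Finset.mem_filter.2 ⟨hxz, by omega⟩, Or.inl rfl⟩
        · refine ⟨_, Finset.mem_filter.2 ⟨hcon x hx hxz, by omega⟩, Or.inr rfl⟩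
      choose! g hg1 hg2 using hg
      have hle := Finset.card_le_card_of_injOn g hg1 (by
        intro x hx x' hx' hxx
        rw [Finset.mem_coe] at hx hx'
        have hx1 := Finset.mem_erase.1 hx
        have hx1' := Finset.mem_erase.1 hx'
        have hx2 := le_top (Finset.mem_filter.1 hx1.2).1
        have hx2' := le_top (Finset.mem_filter.1 hx1'.2).1
        rcases hg2 x hx with h1 | h1 <;> rcases hg2 x' hx' with h2 | h2 <;> omega)
      have hcK : (U.filter (fun x => rk U x ≤ m / 4)).card - 1 ≤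
          ((U.filter (fun x => rk U x ≤ m / 4)).erase K).card := Finset.pred_card_le_card_erase
      omega
    obtain ⟨x, hx, hx1, hx2⟩ := hex
    obtain ⟨hxK, hx3⟩ := Finset.mem_erase.1 hx
    obtain ⟨hxU, hxr⟩ := Finset.mem_filter.1 hx3
    have hxle := le_top hxU
    have hKe : K ∈ U.erase x := Finset.mem_erase.2 ⟨Ne.symm hxK, hKU⟩
    refine Cov.good D.hl hxU hx1 (Cov.good D.hl hKe hx2 (IH _ _ ?_ ?_))
    · rw [Finset.card_erase_of_mem hKe, Finset.card_erase_of_mem hxU]
      omega
    · have s1 := sum_erase_radii hxU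
      have s2 := sum_erase_radii hKe
      refine ⟨D.hl, D.hr, by omega, hQa, D.aL, D.quiet, ?_, ?_⟩
      · exact D.hc.erase_pair hxU hxK (by omega)
      · have hb := D.budget
        have hmono : (inner L h (a + (2 * x + 1) + (2 * K + 1)) a').card ≤
            (inner L h a a').card := by
          refine Finset.card_le_card ?_
          intro z hz
          simp only [inner, Finset.mem_filter] at hz ⊢
          exact ⟨hz.1, by omega, hz.2.2⟩
        omega
  · -- three forced steps
    push Not at hloc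
    obtain ⟨ht2, ht3⟩ := top_three (U := U) (by omega)
    set U1 := U.erase K with hU1
    have hc1 : U1.card = m - 1 := Finset.card_erase_of_mem hKU
    have hne1 : U1.Nonempty := Finset.card_pos.1 (by omega)
    set r2 := top U1 with hr2
    have hr2U : r2 ∈ U1 := top_mem hne1
    set U2 := U1.erase r2 with hU2
    have hc2 : U2.card = m - 2 := by
      rw [hU2, Finset.card_erase_of_mem hr2U, hc1]; omega
    have hne2 : U2.Nonempty := Finset.card_pos.1 (by omega)
    set r3 := top U2 with hr3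
    have hr3U : r3 ∈ U2 := top_mem hne2
    have hHC : HC (U2.erase r3) :=
      ((D.hc.erase_top hne).erase_top hne1).erase_top hne2
    have s1 : ∑ x ∈ U1, (2 * x + 1) + (2 * K + 1) = ∑ x ∈ U, (2 * x + 1) := sum_erase_radii hKU
    have s2 : ∑ x ∈ U2, (2 * x + 1) + (2 * r2 + 1) = ∑ x ∈ U1, (2 * x + 1) :=
      sum_erase_radii hr2U
    have s3 : ∑ x ∈ U2.erase r3, (2 * x + 1) + (2 * r3 + 1) = ∑ x ∈ U2, (2 * x + 1) :=
      sum_erase_radii hr3U
    have hr2K : r2 ≤ K := le_top (Finset.mem_of_mem_erase hr2U)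
    have hr3K : r3 ≤ K :=
      le_top (Finset.mem_of_mem_erase (Finset.mem_of_mem_erase hr3U))
    set η := m / 100 with hη
    have hη1 : 100 * η ≤ m := by omega
    refine Cov.bad (η := η) hKU hheight (Cov.bad (η := η) hr2U ?_
      (Cov.bad (η := η) hr3U ?_ (IH _ _ ?_ ?_)))
    · intro i hi h1 h2
      exact hheight i hi (by omega) h2
    · intro i hi h1 h2
      exact hheight i hi (by omega) h2
    · rw [Finset.card_erase_of_mem hr3U, hc2]
      omega
    · have hb := D.budget
      set b := a + (2 * K + 1) - 2 * η + (2 * r2 + 1) - 2 * η + (2 * r3 + 1) - 2 * η with hbdef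
      have hbge : a + (4 * K + 2) ≤ b := by omega
      have hbQ : b ≤ Q := by omega
      have hdrop : (inner L h b a').card + m / 4 ≤ (inner L h a a').card := by
        have hdisj : Disjoint (inner L h b a')
            ((cuts L h).filter (fun z => a < z ∧ z ≤ a + (4 * K + 2))) := by
          rw [Finset.disjoint_left]
          intro z hz hz'
          simp only [inner, Finset.mem_filter] at hz hz'
          omega
        have hsub : inner L h b a' ∪
            ((cuts L h).filter (fun z => a < z ∧ z ≤ a + (4 * K + 2))) ⊆ inner L h a a' := by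
          intro z hz
          rw [Finset.mem_union] at hz
          simp only [inner, Finset.mem_filter] at hz ⊢
          rcases hz with ⟨h1, h2, h3⟩ | ⟨h1, h2, h3⟩
          · exact ⟨h1, by omega, h3⟩
          · exact ⟨h1, h2, by omega⟩
        have := Finset.card_le_card hsub
        rw [Finset.card_union_of_disjoint hdisj] at this
        omega
      have h24 : 24 * η ≤ m / 4 := by omega
      refine ⟨D.hl, D.hr, hbQ, hQa, D.aL, D.quiet, hHC, ?_⟩
      show 4 * (a' - b) + (inner L h b a').card ≤ 4 * ∑ x ∈ U2.erase r3, (2 * x + 1)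
      omega

theorem process : ∀ (m : ℕ) (L : ℕ) (h : ℕ → ℕ) (Q : ℕ) (U : Finset ℕ) (a a' : ℕ),
    U.card = m → Data L h Q U a a' → Cov L h U a a' := by
  intro m
  induction m using Nat.strong_induction_on with
  | _ m IH =>
  intro L h Q U a a' hU D
  rcases Nat.lt_or_ge (a' - a) (18 * m) with hsmall | hlarge
  · -- finish
    refine Cov.crude (η := m / 100) m U a a' hU (by rw [← hU]; exact D.height_le) ?_
    rcases Nat.lt_or_ge m 100 with h1 | h1
    · have e : m / 100 = 0 := by omega
      rw [e]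
      have hb := D.budget
      simp only [Nat.mul_zero, Nat.sub_zero]
      omega
    · have h2 := sum_sub_ge (m / 100) m U hU
      refine le_trans ?_ h2
      have h3 : 99 * m ≤ 100 * (m - m / 100) := by omega
      have h4 : (99 * m) ^ 2 ≤ (100 * (m - m / 100)) ^ 2 := Nat.pow_le_pow_left h3 2
      nlinarith
  · have haQ := D.aQ
    have hQa := D.Qa
    rcases Nat.lt_or_ge (Q - a) (9 * m) with h1 | h1
    · -- work on the right side
      refine Cov.reflect D.aL ?_
      have D' := D.reflect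
      have haL := D.aL
      refine left_block D' (by rw [hU]; omega) (by rw [hU]; omega) ?_
      intro U' b hU' D''
      exact IH U'.card (by omega) _ _ _ U' _ _ rfl D''
    · refine left_block D (by rw [hU]; exact h1) (by rw [hU]; exact hlarge) ?_
      intro U' b hU' D''
      exact IH U'.card (by omega) _ _ _ U' _ _ rfl D''

end Pool.Agent.Helper64.Burn
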